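import Mathlib

/-! Cross products and Frobenius powers of vectors. -/

set_option autoImplicit false

namespace Pool.Agent.V1156.Ins

section ring

variable {A : Type*} [CommRing A]

/-- the cross product -/
def cr (a b : Fin 3 → A) : Fin 3 → A :=
  ![a 1 * b 2 - a 2 * b 1, a 2 * b 0 - a 0 * b 2, a 0 * b 1 - a 1 * b 0]

/-- the bilinear pairing -/
def dt (a b : Fin 3 → A) : A := a 0 * b 0 + a 1 * b 1 + a 2 * b 2

/-- the vector of the `n`-th powers -/
def pw (a : Fin 3 → A) (n : ℕ) : Fin 3 → A := fun i => a i ^ n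

@[simp] theorem cr_zero (a b : Fin 3 → A) : cr a b 0 = a 1 * b 2 - a 2 * b 1 := rfl
@[simp] theorem cr_one (a b : Fin 3 → A) : cr a b 1 = a 2 * b 0 - a 0 * b 2 := rfl
@[simp] theorem cr_two (a b : Fin 3 → A) : cr a b 2 = a 0 * b 1 - a 1 * b 0 := rfl

theorem dt_cr_left (a b : Fin 3 → A) : dt a (cr a b) = 0 := by
  simp only [dt, cr_zero, cr_one, cr_two]; ring

theorem dt_cr_right (a b : Fin 3 → A) : dt b (cr a b) = 0 := by
  simp only [dt, cr_zero, cr_one, cr_two]; ring

theorem dt_comm (a b : Fin 3 → A) : dt a b = dt b a := by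
  simp only [dt]; ring

theorem dt_smul_left (c : A) (a b : Fin 3 → A) : dt (c • a) b = c * dt a b := by
  simp only [dt, Pi.smul_apply, smul_eq_mul]; ring

theorem dt_smul_right (c : A) (a b : Fin 3 → A) : dt a (c • b) = c * dt a b := by
  simp only [dt, Pi.smul_apply, smul_eq_mul]; ring

theorem cr_smul_left (c : A) (a b : Fin 3 → A) : cr (c • a) b = c • cr a b := by
  ext i
  fin_cases i <;> simp [cr] <;> ring

theorem cr_smul_right (c : A) (a b : Fin 3 → A) : cr a (c • b) = c • cr a b := by
  ext i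
  fin_cases i <;> simp [cr] <;> ring

theorem cr_self (a : Fin 3 → A) : cr a a = 0 := by
  ext i
  fin_cases i <;> simp [cr] <;> ring

theorem pw_smul (c : A) (a : Fin 3 → A) (n : ℕ) : pw (c • a) n = c ^ n • pw a n := by
  ext i
  simp [pw, mul_pow]

theorem pw_pw (a : Fin 3 → A) (m n : ℕ) : pw (pw a m) n = pw a (m * n) := by
  ext i
  simp [pw, pow_mul]

/-- a vector orthogonal to `a` and `b` is proportional to the cross product -/
theorem prop_of_dt {a b y : Fin 3 → A} (ha : dt a y = 0) (hb : dt b y = 0) (i j : Fin 3) :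
    y i * cr a b j = y j * cr a b i := by
  have key : ∀ i j : Fin 3, (i = 0 ∧ j = 1) ∨ (i = 0 ∧ j = 2) ∨ (i = 1 ∧ j = 2) →
      y i * cr a b j = y j * cr a b i := by
    simp only [dt] at ha hb
    rintro i j (⟨rfl, rfl⟩ | ⟨rfl, rfl⟩ | ⟨rfl, rfl⟩)
    · simp only [cr_zero, cr_one]
      linear_combination a 2 * hb - b 2 * ha
    · simp only [cr_zero, cr_two]
      linear_combination b 1 * ha - a 1 * hb
    · simp only [cr_one, cr_two]
      linear_combination a 0 * hb - b 0 * ha
  fin_cases i <;> fin_cases j <;> first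
    | rfl
    | exact key _ _ (by decide)
    | exact (key _ _ (by decide)).symm

variable (p : ℕ) [Fact p.Prime] [CharP A p]

theorem dt_pw (a b : Fin 3 → A) (n : ℕ) : dt (pw a (p ^ n)) (pw b (p ^ n)) = dt a b ^ p ^ n := by
  simp only [dt, pw, add_pow_char_pow, mul_pow]

theorem cr_pw (a b : Fin 3 → A) (n : ℕ) : cr (pw a (p ^ n)) (pw b (p ^ n)) = pw (cr a b) (p ^ n) := by
  ext i
  fin_cases i <;> simp [cr, pw, sub_pow_char_pow, mul_pow]

end ring

section field

variable {K : Type*} [Field K]

theorem exists_mul_of_dt {a b y : Fin 3 → K} (ha : dt a y = 0) (hb : dt b y = 0)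
    (h : cr a b ≠ 0) : ∃ c : K, y = c • cr a b := by
  obtain ⟨j, hj⟩ := Function.ne_iff.1 h
  refine ⟨y j / cr a b j, ?_⟩
  ext i
  have := prop_of_dt ha hb i j
  simp only [Pi.smul_apply, smul_eq_mul]
  rw [div_mul_eq_mul_div, eq_div_iff hj, this]

/-- if the cross product of two vectors vanishes they are proportional -/
theorem exists_mul_of_cr {a b : Fin 3 → K} (ha : a ≠ 0) (h : cr a b = 0) : ∃ c : K, b = c • a := by
  obtain ⟨j, hj⟩ := Function.ne_iff.1 ha
  have h0 := congrFun h 0
  have h1 := congrFun h 1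
  have h2 := congrFun h 2
  simp only [cr_zero, cr_one, cr_two, Pi.zero_apply] at h0 h1 h2
  simp only [Pi.zero_apply] at hj
  refine ⟨b j / a j, ?_⟩
  have key : ∀ i, b i * a j = b j * a i := by
    intro i
    fin_cases i <;> fin_cases j <;> simp <;> first
      | rfl
      | ring1
      | linear_combination h0
      | linear_combination h1
      | linear_combination h2
      | linear_combination -h0
      | linear_combination -h1
      | linear_combination -h2
  ext i
  simp only [Pi.smul_apply, smul_eq_mul]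
  rw [div_mul_eq_mul_div, eq_div_iff hj, key i]

end field

end Pool.Agent.V1156.Ins
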