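import Mathlib

/-! Closed subvarieties of the product of two projective planes in classical coordinates: function
fields, degrees of rational maps to the plane, gonality. -/

set_option autoImplicit false

namespace Pool.Agent.V1156.Ins

open MvPolynomial

/-- The indices of the coordinates `x_0, x_1, x_2; y_0, y_1, y_2` of the product of two projective
planes. -/
abbrev Ix : Type := Fin 3 ⊕ Fin 3

variable {k : Type*} [Field k]

/-- The closed subset of the product of two projective planes defined by the equations in `S`:
the set of all pairs `(x, y)` of vectors of homogeneous coordinates of its points. -/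
def zeros (S : Set (MvPolynomial Ix k)) : Set (Ix → k) :=
  {p | (∃ i, p (Sum.inl i) ≠ 0) ∧ (∃ i, p (Sum.inr i) ≠ 0) ∧ ∀ H ∈ S, eval p H = 0}

/-- `H` is bihomogeneous of degree `a` in `x` and degree `b` in `y`. -/
def IsBihomogeneous (H : MvPolynomial Ix k) (a b : ℕ) : Prop :=
  IsWeightedHomogeneous
    (Sum.elim (fun _ : Fin 3 => ((1, 0) : ℕ × ℕ)) (fun _ : Fin 3 => ((0, 1) : ℕ × ℕ))) H (a, b)

/-- The gradient of `H` at `p`. -/
noncomputable def gradient (H : MvPolynomial Ix k) (p : Ix → k) : Ix → k :=
  fun i => eval p (pderiv i H)

/-- `Z` is irreducible: the ideal of the polynomials vanishing on `Z` is prime. -/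
abbrev Irred (Z : Set (Ix → k)) : Prop := (vanishingIdeal k Z).IsPrime

/-- The bihomogeneous coordinate ring of `Z`: polynomials modulo the ideal of `Z`. -/
abbrev CoordRing (Z : Set (Ix → k)) : Type _ := MvPolynomial Ix k ⧸ vanishingIdeal k Z

instance coordRingIsDomain (Z : Set (Ix → k)) [h : Irred Z] : IsDomain (CoordRing Z) :=
  Ideal.Quotient.isDomain (hI := h) (vanishingIdeal k Z)

/-- The field of fractions of the bihomogeneous coordinate ring of an irreducible closed set. -/
def BigField (Z : Set (Ix → k)) [Irred Z] : Type _ := FractionRing (CoordRing Z)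

noncomputable instance bigFieldField (Z : Set (Ix → k)) [Irred Z] : Field (BigField Z) :=
  FractionRing.field (CoordRing Z)

noncomputable instance bigFieldAlgebra (Z : Set (Ix → k)) [Irred Z] : Algebra k (BigField Z) :=
  OreLocalization.instAlgebra (R₀ := k) (R := CoordRing Z) (S := nonZeroDivisors (CoordRing Z))

/-- The coordinates as elements of this field. -/
noncomputable def coord (Z : Set (Ix → k)) [Irred Z] (i : Ix) : BigField Z :=
  algebraMap (CoordRing Z) (FractionRing (CoordRing Z))
    (Ideal.Quotient.mk (vanishingIdeal k Z) (X i))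

/-- The function field of the irreducible closed subset `Z` of the product of two projective planes:
the field generated over `k` by the ratios `x_i / x_j` and `y_i / y_j` of the coordinates. -/
noncomputable def functionField (Z : Set (Ix → k)) [Irred Z] : IntermediateField k (BigField Z) :=
  IntermediateField.adjoin k {z | ∃ i j : Fin 3,
    z = coord Z (Sum.inl i) / coord Z (Sum.inl j) ∨ z = coord Z (Sum.inr i) / coord Z (Sum.inr j)}

/-- The function `x_i / x_j`. -/
noncomputable def ratioX (Z : Set (Ix → k)) [Irred Z] (i j : Fin 3) : functionField Z :=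
  ⟨coord Z (Sum.inl i) / coord Z (Sum.inl j),
    IntermediateField.subset_adjoin k _ ⟨i, j, Or.inl rfl⟩⟩

/-- The function `y_i / y_j`. -/
noncomputable def ratioY (Z : Set (Ix → k)) [Irred Z] (i j : Fin 3) : functionField Z :=
  ⟨coord Z (Sum.inr i) / coord Z (Sum.inr j),
    IntermediateField.subset_adjoin k _ ⟨i, j, Or.inr rfl⟩⟩

/-- The equations `f` and `g` define a smooth surface in the product of two projective planes: they
are bihomogeneous, and (Jacobian criterion) at every common zero their gradients are linearly
independent. -/
def IsSmoothSurface (f g : MvPolynomial Ix k) : Prop :=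
  (∃ a b, IsBihomogeneous f a b) ∧ (∃ a b, IsBihomogeneous g a b) ∧
    ∀ P ∈ zeros {f, g}, LinearIndependent k ![gradient f P, gradient g P]

/-- The preimage, in the closed subset `Z` of the product of two projective planes, of the line
`c_0 x_0 + c_1 x_1 + c_2 x_2 = 0` under the first projection `(x, y) ↦ x`. -/
def preimageLine (Z : Set (Ix → k)) (c : Fin 3 → k) : Set (Ix → k) :=
  {P | P ∈ Z ∧ ∑ i, c i * P (Sum.inl i) = 0}

/-- Let `K` be the function field of a variety over `k`. The rational map `(1 : a : b)` from the
variety to the projective plane, where `a` and `b` are in `K`, is dominant if `a` and `b` are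
algebraically independent over `k`. -/
def Dominant (k : Type*) {K : Type*} [Field k] [Field K] [Algebra k K] (a b : K) : Prop :=
  AlgebraicIndependent k ![a, b]

/-- The degree of the rational map `(1 : a : b)`: the degree of the extension of `K` over the field
`k(a, b)`. -/
noncomputable def mapDegree (k : Type*) {K : Type*} [Field k] [Field K] [Algebra k K] (a b : K) :
    Cardinal :=
  Module.rank (IntermediateField.adjoin k {a, b}) K

/-- The rational map `(1 : a : b)` is dominant, and no dominant rational map to the projective plane
has smaller degree. -/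
def HasMinimalDegree (k : Type*) {K : Type*} [Field k] [Field K] [Algebra k K] (a b : K) : Prop :=
  Dominant k a b ∧ ∀ a' b' : K, Dominant k a' b' → mapDegree k a b ≤ mapDegree k a' b'

/-- The gonality of a curve with function field `K`: the least degree of `K` over a subfield `k(z)`,
where `z` is a nonconstant function (a transcendental element). -/
noncomputable def gonality (k : Type*) (K : Type*) [Field k] [Field K] [Algebra k K] : ℕ :=
  sInf {d | 0 < d ∧ ∃ z : K, Transcendental k z ∧
    Module.finrank (IntermediateField.adjoin k {z}) K = d}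

/-- The first projection `(x, y) ↦ x` from `Z` to the plane, that is the rational map
`(1 : x_1 / x_0 : x_2 / x_0)`, is dominant of degree `d`, and no dominant rational map from `Z` to the
plane has smaller degree. -/
def FirstProjectionIsMinimal (Z : Set (Ix → k)) [Irred Z] (d : ℕ) : Prop :=
  HasMinimalDegree k (ratioX Z 1 0) (ratioX Z 2 0) ∧ mapDegree k (ratioX Z 1 0) (ratioX Z 2 0) = d

/-- The preimage in `Z` of a general line under the first projection is an irreducible curve of
gonality `d`: this holds for all lines `c_0 x_0 + c_1 x_1 + c_2 x_2 = 0` with `Q(c) ≠ 0`, for some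
nonzero polynomial `Q`. -/
def GeneralPreimageHasGonality (Z : Set (Ix → k)) (d : ℕ) : Prop :=
  ∃ Q : MvPolynomial (Fin 3) k, Q ≠ 0 ∧ ∀ c : Fin 3 → k, eval c Q ≠ 0 →
    ∃ _ : Irred (preimageLine Z c), gonality k (functionField (preimageLine Z c)) = d

section embed

variable {Z : Set (Ix → k)} {A : Type*} [CommRing A] [IsDomain A] [Algebra k A]

theorem irred_of_ker (Θ : MvPolynomial Ix k →ₐ[k] A)
    (h : ∀ H, H ∈ vanishingIdeal k Z ↔ Θ H = 0) : Irred Z := by
  have : vanishingIdeal k Z = RingHom.ker Θ := by
    ext H
    rw [h, RingHom.mem_ker]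
  unfold Irred
  rw [this]
  exact RingHom.ker_isPrime _

theorem exists_embed [Irred Z] (Θ : MvPolynomial Ix k →ₐ[k] A)
    (h : ∀ H, H ∈ vanishingIdeal k Z ↔ Θ H = 0) :
    ∃ ι : BigField Z →ₐ[k] FractionRing A, Function.Injective ι ∧
      ∀ i, ι (coord Z i) = algebraMap A (FractionRing A) (Θ (X i)) := by
  let g : CoordRing Z →ₐ[k] A :=
    Ideal.Quotient.liftₐ (vanishingIdeal k Z) Θ (fun H hH => (h H).1 hH)
  have hg : Function.Injective g := by
    rw [injective_iff_map_eq_zero]
    intro x hx
    obtain ⟨H, rfl⟩ := Ideal.Quotient.mk_surjective x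
    exact Ideal.Quotient.eq_zero_iff_mem.2 ((h H).2 hx)
  let g' : CoordRing Z →ₐ[k] FractionRing A :=
    (IsScalarTower.toAlgHom k A (FractionRing A)).comp g
  have hg' : Function.Injective g' :=
    (IsFractionRing.injective A (FractionRing A)).comp hg
  let φ : FractionRing (CoordRing Z) →+* FractionRing A :=
    IsFractionRing.lift (g := g'.toRingHom) hg'
  have hφ : ∀ x, φ (algebraMap (CoordRing Z) (FractionRing (CoordRing Z)) x) = g' x := fun x =>
    IsFractionRing.lift_algebraMap (K := FractionRing (CoordRing Z)) (g := g'.toRingHom) hg' x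
  exact ⟨{ toRingHom := φ
           commutes' := fun c => (hφ (algebraMap k (CoordRing Z) c)).trans (g'.commutes c) },
    RingHom.injective φ, fun i => hφ _⟩

end embed

end Pool.Agent.V1156.Ins
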