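import Pool.Agent.V1156.Ins.Vec

/-! The function field of the surface, and the degree of the first projection. -/

set_option autoImplicit false
set_option linter.unusedSectionVars false

namespace Pool.Agent.V1156.Ins

open MvPolynomial

variable {k : Type*} [Field k] {p : ℕ} [hp : Fact p.Prime] [CharP k p] [IsAlgClosed k]

/-- the surface -/
def surf (k : Type*) [Field k] (p : ℕ) : Set (Ix → k) := zeros {fX k p, gX k p}

instance irred_surf : Irred (surf k p) := irred_of_ker (aeval (par k p)) ideal_surf

theorem jj_par_inl (i : Fin 3) : jj k 4 (par k p (Sum.inl i)) = jj k 4 (X 2) * nu k i ^ p := by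
  fin_cases i <;> simp [par, pw, nu]

theorem jj_par_inr (i : Fin 3) : jj k 4 (par k p (Sum.inr i)) = jj k 4 (X 3) * cc k p i := by
  fin_cases i <;> simp [par, pw, nu, cc]

variable (k p) in
theorem exists_iota : ∃ ι : BigField (surf k p) →ₐ[k] Rf k 4, Function.Injective ι ∧
    (∀ i, ι (coord (surf k p) (Sum.inl i)) = jj k 4 (X 2) * nu k i ^ p) ∧
    (∀ i, ι (coord (surf k p) (Sum.inr i)) = jj k 4 (X 3) * cc k p i) := by
  obtain ⟨ι, h1, h2⟩ := exists_embed (Z := surf k p) (aeval (par k p)) ideal_surf
  refine ⟨ι, h1, ?_, ?_⟩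
  · intro i
    rw [h2, aeval_X, ← jj_par_inl]
  · intro i
    rw [h2, aeval_X, ← jj_par_inr]

theorem nu_ne (i : Fin 3) : nu k i ≠ 0 := by
  fin_cases i
  · simp [nu]
  · exact X_ne 0
  · exact X_ne 1

/-- the embedding on the ratios -/
theorem iota_ratioX {ι : BigField (surf k p) →ₐ[k] Rf k 4}
    (h1 : ∀ i, ι (coord (surf k p) (Sum.inl i)) = jj k 4 (X 2) * nu k i ^ p) (i j : Fin 3) :
    ι (ratioX (surf k p) i j : BigField (surf k p)) = nu k i ^ p / nu k j ^ p := by
  change ι (coord (surf k p) (Sum.inl i) / coord (surf k p) (Sum.inl j)) = _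
  rw [map_div₀, h1, h1, mul_div_mul_left _ _ (X_ne 2)]

theorem iota_ratioY {ι : BigField (surf k p) →ₐ[k] Rf k 4}
    (h1 : ∀ i, ι (coord (surf k p) (Sum.inr i)) = jj k 4 (X 3) * cc k p i) (i j : Fin 3) :
    ι (ratioY (surf k p) i j : BigField (surf k p)) = cc k p i / cc k p j := by
  change ι (coord (surf k p) (Sum.inr i) / coord (surf k p) (Sum.inr j)) = _
  rw [map_div₀, h1, h1, mul_div_mul_left _ _ (X_ne 3)]

/-- an intermediate field of the function field which contains all the ratios is everything -/
theorem eq_top_of_ratios {Z : Set (Ix → k)} [Irred Z] (E : IntermediateField k (functionField Z))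
    (hX : ∀ i j, ratioX Z i j ∈ E) (hY : ∀ i j, ratioY Z i j ∈ E) : E = ⊤ := by
  rw [eq_top_iff]
  rintro z -
  rw [← IntermediateField.mem_lift]
  have h1 : functionField Z ≤ IntermediateField.lift E := by
    unfold functionField
    rw [IntermediateField.adjoin_le_iff]
    rintro w ⟨i, j, rfl | rfl⟩
    · exact (IntermediateField.mem_lift (ratioX Z i j)).2 (hX i j)
    · exact (IntermediateField.mem_lift (ratioY Z i j)).2 (hY i j)
  exact h1 z.2

/-- the image of the function field -/
theorem iota_mem {ι : BigField (surf k p) →ₐ[k] Rf k 4}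
    (h1 : ∀ i, ι (coord (surf k p) (Sum.inl i)) = jj k 4 (X 2) * nu k i ^ p)
    (h2 : ∀ i, ι (coord (surf k p) (Sum.inr i)) = jj k 4 (X 3) * cc k p i)
    (z : functionField (surf k p)) : ι (z : BigField (surf k p)) ∈ IntermediateField.adjoin k
      {w : Rf k 4 | (∃ i j, w = nu k i ^ p / nu k j ^ p) ∨ (∃ i j, w = cc k p i / cc k p j)} := by
  have h3 : functionField (surf k p) ≤ (IntermediateField.adjoin k
      {w : Rf k 4 | (∃ i j, w = nu k i ^ p / nu k j ^ p) ∨
        (∃ i j, w = cc k p i / cc k p j)}).comap ι := by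
    unfold functionField
    rw [IntermediateField.adjoin_le_iff]
    rintro w ⟨i, j, rfl | rfl⟩
    · apply IntermediateField.subset_adjoin
      exact Or.inl ⟨i, j, iota_ratioX h1 i j⟩
    · apply IntermediateField.subset_adjoin
      exact Or.inr ⟨i, j, iota_ratioY h2 i j⟩
  exact h3 z.2

variable (k p) in
theorem dominant_pr : Dominant k (ratioX (surf k p) 1 0) (ratioX (surf k p) 2 0) := by
  obtain ⟨ι, hι, h1, h2⟩ := exists_iota k p
  let f : functionField (surf k p) →ₐ[k] Rf k 4 := ι.comp (functionField (surf k p)).val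
  have hf : Function.Injective f := f.toRingHom.injective
  unfold Dominant
  rw [← f.algebraicIndependent_iff hf]
  have hcomp : (f ∘ ![ratioX (surf k p) 1 0, ratioX (surf k p) 2 0]) =
      fun i : Fin 2 => jj k 4 (X (Fin.castLE (by norm_num) i)) ^ p := by
    ext i
    fin_cases i
    · have := iota_ratioX h1 1 0
      change ι (ratioX (surf k p) 1 0 : BigField (surf k p)) = _
      rw [this]
      simp [nu]
    · have := iota_ratioX h1 2 0
      change ι (ratioX (surf k p) 2 0 : BigField (surf k p)) = _
      rw [this]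
      simp [nu]
  rw [hcomp, algebraicIndependent_iff]
  intro F hF
  have h3 : aeval (fun i : Fin 2 => jj k 4 (X (Fin.castLE (by norm_num) i)) ^ p) F =
      jj k 4 (rename (Fin.castLE (by norm_num)) (expand p F)) := by
    have : (aeval (fun i : Fin 2 => jj k 4 (X (Fin.castLE (by norm_num) i)) ^ p) :
        MvPolynomial (Fin 2) k →ₐ[k] Rf k 4) =
        ((IsScalarTower.toAlgHom k (MvPolynomial (Fin 4) k) (Rf k 4)).comp
        (rename (Fin.castLE (by norm_num)))).comp (expand p) := by
      apply MvPolynomial.algHom_ext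
      intro i
      simp
    rw [this]
    rfl
  rw [h3] at hF
  have h4 := (map_eq_zero_iff _ (IsFractionRing.injective (MvPolynomial (Fin 4) k) (Rf k 4))).1 hF
  have h5 := (map_eq_zero_iff _ (rename_injective _ (Fin.castLE_injective _))).1 h4
  exact (expand_eq_zero hp.out.pos).1 h5

/-- the function `s = y_1 / y_0` has its `p`-th power in the base field -/
theorem ratioY_pow : ratioY (surf k p) 1 0 ^ p =
    (ratioX (surf k p) 2 0 - ratioX (surf k p) 2 0 ^ (p * p)) /
    (ratioX (surf k p) 1 0 * ratioX (surf k p) 2 0 ^ (p * p) -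
      ratioX (surf k p) 2 0 * ratioX (surf k p) 1 0 ^ (p * p)) := by
  obtain ⟨ι, hι, h1, h2⟩ := exists_iota k p
  let f : functionField (surf k p) →ₐ[k] Rf k 4 := ι.comp (functionField (surf k p)).val
  have hf : Function.Injective f := f.toRingHom.injective
  have hfX : ∀ i j, f (ratioX (surf k p) i j) = nu k i ^ p / nu k j ^ p :=
    fun i j => iota_ratioX h1 i j
  have hfY : ∀ i j, f (ratioY (surf k p) i j) = cc k p i / cc k p j :=
    fun i j => iota_ratioY h2 i j
  apply hf
  rw [map_pow, map_div₀, map_sub, map_sub, map_mul, map_mul, map_pow, map_pow, hfX, hfX, hfY]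
  have e0 : nu k 0 = 1 := rfl
  have e1 : cc k p 1 = nu k 2 - nu k 2 ^ (p * p) := by
    simp [cc, pw, nu]
  have e2 : cc k p 0 = nu k 1 * nu k 2 ^ (p * p) - nu k 2 * nu k 1 ^ (p * p) := by
    simp [cc, pw]
  rw [e0, e1, e2, one_pow, div_one, div_one, div_pow, sub_pow_char, sub_pow_char, mul_pow, mul_pow]
  congr 2 <;> ring

theorem top_of_X_s (E : IntermediateField k (functionField (surf k p)))
    (hX1 : ratioX (surf k p) 1 0 ∈ E) (hX2 : ratioX (surf k p) 2 0 ∈ E)
    (hY1 : ratioY (surf k p) 1 0 ∈ E) : E = ⊤ := by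
  obtain ⟨ι, hι, h1, h2⟩ := exists_iota k p
  let f : functionField (surf k p) →ₐ[k] Rf k 4 := ι.comp (functionField (surf k p)).val
  have hf : Function.Injective f := f.toRingHom.injective
  have hfX : ∀ i j, f (ratioX (surf k p) i j) = nu k i ^ p / nu k j ^ p :=
    fun i j => iota_ratioX h1 i j
  have hfY : ∀ i j, f (ratioY (surf k p) i j) = cc k p i / cc k p j :=
    fun i j => iota_ratioY h2 i j
  have e0 : nu k 0 = 1 := rfl
  have hX0 : ratioX (surf k p) 0 0 = 1 := by
    apply hf
    rw [hfX, map_one, div_self (pow_ne_zero _ (nu_ne 0))]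
  have hY0 : ratioY (surf k p) 0 0 = 1 := by
    apply hf
    rw [hfY, map_one, div_self cc_zero_ne]
  have hXij : ∀ i j, ratioX (surf k p) i j = ratioX (surf k p) i 0 / ratioX (surf k p) j 0 := by
    intro i j
    apply hf
    rw [map_div₀, hfX, hfX, hfX, div_div_div_cancel_right₀ (pow_ne_zero _ (nu_ne 0))]
  have hYij : ∀ i j, ratioY (surf k p) i j = ratioY (surf k p) i 0 / ratioY (surf k p) j 0 := by
    intro i j
    apply hf
    rw [map_div₀, hfY, hfY, hfY, div_div_div_cancel_right₀ cc_zero_ne]
  have hX0' : ∀ i, ratioX (surf k p) i 0 ∈ E := by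
    intro i
    fin_cases i
    · change ratioX (surf k p) 0 0 ∈ E
      rw [hX0]; exact one_mem _
    · exact hX1
    · exact hX2
  have hrel : ratioY (surf k p) 2 0 =
      -(1 + ratioX (surf k p) 1 0 ^ p * ratioY (surf k p) 1 0) / ratioX (surf k p) 2 0 ^ p := by
    apply hf
    have hn : nu k 2 ^ (p * p) ≠ 0 := pow_ne_zero _ (nu_ne 2)
    have hc : cc k p 0 ≠ 0 := cc_zero_ne
    rw [map_div₀, map_neg, map_add, map_one, map_mul, map_pow, map_pow, hfX, hfX, hfY, hfY, e0,
      one_pow, div_one, div_one, ← pow_mul, ← pow_mul]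
    have hd := dt_cr_right (nu k) (pw (nu k) (p * p))
    have hd' : cc k p 0 + nu k 1 ^ (p * p) * cc k p 1 + nu k 2 ^ (p * p) * cc k p 2 = 0 := by
      have : nu k 0 ^ (p * p) = 1 := by rw [e0, one_pow]
      simp only [dt, pw] at hd
      rw [this, one_mul] at hd
      exact hd
    field_simp
    linear_combination hd'
  have hY0' : ∀ i, ratioY (surf k p) i 0 ∈ E := by
    intro i
    fin_cases i
    · change ratioY (surf k p) 0 0 ∈ E
      rw [hY0]; exact one_mem _
    · exact hY1
    · change ratioY (surf k p) 2 0 ∈ E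
      rw [hrel]
      exact div_mem (neg_mem (add_mem (one_mem _) (mul_mem (pow_mem hX1 _) hY1))) (pow_mem hX2 _)
  apply eq_top_of_ratios
  · intro i j
    rw [hXij]
    exact div_mem (hX0' i) (hX0' j)
  · intro i j
    rw [hYij]
    exact div_mem (hY0' i) (hY0' j)

theorem s_not_mem : ratioY (surf k p) 1 0 ∉
    IntermediateField.adjoin k {ratioX (surf k p) 1 0, ratioX (surf k p) 2 0} := by
  intro hmem
  obtain ⟨ι, hι, h1, h2⟩ := exists_iota k p
  let f : functionField (surf k p) →ₐ[k] Rf k 4 := ι.comp (functionField (surf k p)).val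
  have hfX : ∀ i j, f (ratioX (surf k p) i j) = nu k i ^ p / nu k j ^ p :=
    fun i j => iota_ratioX h1 i j
  have hfY : ∀ i j, f (ratioY (surf k p) i j) = cc k p i / cc k p j :=
    fun i j => iota_ratioY h2 i j
  apply ratio_not_mem (k := k) (p := p)
  rw [← hfY]
  set T := IntermediateField.adjoin k ({jj k 4 (X 0) ^ p, jj k 4 (X 1) ^ p} : Set (Rf k 4)) with hT
  have h3 : IntermediateField.adjoin k {ratioX (surf k p) 1 0, ratioX (surf k p) 2 0} ≤
      T.comap f := by
    rw [IntermediateField.adjoin_le_iff]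
    rintro z (rfl | rfl)
    · change f (ratioX (surf k p) 1 0) ∈ T
      rw [hfX]
      have : nu k 1 ^ p / nu k 0 ^ p = jj k 4 (X 0) ^ p := by simp [nu]
      rw [this]
      exact IntermediateField.subset_adjoin _ _ (Or.inl rfl)
    · change f (ratioX (surf k p) 2 0) ∈ T
      rw [hfX]
      have : nu k 2 ^ p / nu k 0 ^ p = jj k 4 (X 1) ^ p := by simp [nu]
      rw [this]
      exact IntermediateField.subset_adjoin _ _ (Or.inr rfl)
  exact h3 hmem

variable (k p) in
/-- The first projection has degree `p`. -/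
theorem degree_pr : mapDegree k (ratioX (surf k p) 1 0) (ratioX (surf k p) 2 0) = p := by
  set F := IntermediateField.adjoin k {ratioX (surf k p) 1 0, ratioX (surf k p) 2 0} with hF
  set s := ratioY (surf k p) 1 0 with hs
  have hX1 : ratioX (surf k p) 1 0 ∈ F := IntermediateField.subset_adjoin _ _ (Or.inl rfl)
  have hX2 : ratioX (surf k p) 2 0 ∈ F := IntermediateField.subset_adjoin _ _ (Or.inr rfl)
  have hsp : s ^ p ∈ F := by
    rw [hs, ratioY_pow]
    exact div_mem (sub_mem hX2 (pow_mem hX2 _)) (sub_mem (mul_mem hX1 (pow_mem hX2 _))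
      (mul_mem hX2 (pow_mem hX1 _)))
  have hirr : Irreducible (Polynomial.X ^ p - Polynomial.C (⟨s ^ p, hsp⟩ : F)) := by
    apply X_pow_sub_C_irreducible_of_prime hp.out
    intro b hb
    have h1 : (b : functionField (surf k p)) ^ p = s ^ p := by
      have := congrArg (fun z : F => (z : functionField (surf k p))) hb
      simpa using this
    have h2 : (b : functionField (surf k p)) = s := by
      have : CharP (functionField (surf k p)) p :=
        charP_of_injective_algebraMap (algebraMap k (functionField (surf k p))).injective p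
      exact frobenius_inj _ p h1
    exact s_not_mem (h2 ▸ b.2)
  have hmin : minpoly F s = Polynomial.X ^ p - Polynomial.C (⟨s ^ p, hsp⟩ : F) := by
    symm
    apply minpoly.eq_of_irreducible_of_monic hirr
    · simp
    · exact Polynomial.monic_X_pow_sub_C _ hp.out.ne_zero
  have htop : IntermediateField.adjoin F {s} = ⊤ := by
    rw [← IntermediateField.restrictScalars_eq_top_iff (K := k)]
    have hFm : ∀ z ∈ F, z ∈ (IntermediateField.adjoin F {s}).restrictScalars k := by
      intro z hz
      exact (IntermediateField.adjoin F {s}).algebraMap_mem ⟨z, hz⟩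
    apply top_of_X_s
    · exact hFm _ hX1
    · exact hFm _ hX2
    · exact IntermediateField.subset_adjoin F {s} rfl
  have hint : IsIntegral F s := by
    rw [← minpoly.ne_zero_iff, hmin]
    exact hirr.ne_zero
  have hfin : Module.finrank F (functionField (surf k p)) = p := by
    rw [← IntermediateField.finrank_top', ← htop, IntermediateField.adjoin.finrank hint, hmin,
      Polynomial.natDegree_X_pow_sub_C]
  have : Module.Finite F (functionField (surf k p)) :=
    Module.finite_of_finrank_pos (by rw [hfin]; exact hp.out.pos)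
  unfold mapDegree
  rw [← hF, ← Module.finrank_eq_rank, hfin]

end Pool.Agent.V1156.Ins
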