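import Pool.Agent.V1156.Ins.Surf

/-! Derivations of the rational function field, as homomorphisms to dual numbers. -/

set_option autoImplicit false

namespace Pool.Agent.V1156.Ins

open MvPolynomial

variable {k : Type*} [Field k]

/-- the field of rational functions in `n` variables -/
abbrev Rf (k : Type*) [Field k] (n : ℕ) : Type _ := FractionRing (MvPolynomial (Fin n) k)

/-- the embedding of polynomials -/
noncomputable abbrev jj (k : Type*) [Field k] (n : ℕ) : MvPolynomial (Fin n) k →+* Rf k n :=
  algebraMap (MvPolynomial (Fin n) k) (Rf k n)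

theorem exists_dual {n : ℕ} (D : Fin n → Rf k n) :
    ∃ σ : Rf k n →ₐ[k] TrivSqZeroExt (Rf k n) (Rf k n), (∀ i, σ (jj k n (X i)) =
      TrivSqZeroExt.inl (jj k n (X i)) + TrivSqZeroExt.inr (D i)) ∧ ∀ z, (σ z).fst = z := by
  let M := Rf k n
  let j := jj k n
  let σ₀ : MvPolynomial (Fin n) k →ₐ[k] TrivSqZeroExt M M :=
    aeval (fun i => TrivSqZeroExt.inl (j (X i)) + TrivSqZeroExt.inr (D i))
  have hfst : ∀ F, (σ₀ F).fst = j F := by
    intro F
    have : (TrivSqZeroExt.fstHom k M M).comp σ₀ =
        (IsScalarTower.toAlgHom k (MvPolynomial (Fin n) k) M) := by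
      apply MvPolynomial.algHom_ext
      intro i
      simp [σ₀, j]
      rfl
    exact congrArg (fun f => f F) this
  have hunit : ∀ y : nonZeroDivisors (MvPolynomial (Fin n) k), IsUnit (σ₀ y) := by
    intro y
    rw [TrivSqZeroExt.isUnit_iff_isUnit_fst, hfst, isUnit_iff_ne_zero]
    intro h
    have : (y : MvPolynomial (Fin n) k) = 0 :=
      (map_eq_zero_iff _ (IsFractionRing.injective (MvPolynomial (Fin n) k) M)).1 h
    exact nonZeroDivisors.coe_ne_zero y this
  refine ⟨IsLocalization.liftAlgHom (M := nonZeroDivisors (MvPolynomial (Fin n) k)) hunit, ?_, ?_⟩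
  swap
  · intro z
    have h1 : ((TrivSqZeroExt.fstHom k M M).comp
        (IsLocalization.liftAlgHom (M := nonZeroDivisors (MvPolynomial (Fin n) k)) hunit) :
        Rf k n →ₐ[k] Rf k n).toRingHom = RingHom.id (Rf k n) := by
      apply IsLocalization.ringHom_ext (nonZeroDivisors (MvPolynomial (Fin n) k))
      apply RingHom.ext
      intro F
      have h2 : IsLocalization.liftAlgHom (M := nonZeroDivisors (MvPolynomial (Fin n) k)) hunit
        (j F) = σ₀ F := IsLocalization.lift_eq (hg := hunit) _
      change (IsLocalization.liftAlgHom (M := nonZeroDivisors (MvPolynomial (Fin n) k)) hunit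
        (j F)).fst = j F
      rw [h2, hfst]
    exact congrArg (fun f => f z) h1
  intro i
  have h1 : IsLocalization.liftAlgHom (M := nonZeroDivisors (MvPolynomial (Fin n) k)) hunit
      (j (X i)) = σ₀ (X i) := IsLocalization.lift_eq (hg := hunit) _
  rw [h1]
  simp only [σ₀, aeval_X, j]

/-- two homomorphisms which agree on generators agree on the field they generate -/
theorem eq_on_adjoin {L B : Type*} [Field L] [CommRing B] [Algebra k L] [Algebra k B]
    (σ τ : L →ₐ[k] B) {S : Set L} (h : ∀ z ∈ S, σ z = τ z) {z : L}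
    (hz : z ∈ IntermediateField.adjoin k S) : σ z = τ z := by
  induction hz using IntermediateField.adjoin_induction with
  | mem x hx => exact h x hx
  | algebraMap x => rw [AlgHom.commutes, AlgHom.commutes]
  | add x y _ _ hx hy => rw [map_add, map_add, hx, hy]
  | mul x y _ _ hx hy => rw [map_mul, map_mul, hx, hy]
  | inv x _ hx =>
    by_cases h0 : x = 0
    · rw [h0, inv_zero, map_zero, map_zero]
    · have h1 : σ x * σ x⁻¹ = 1 := by rw [← map_mul, mul_inv_cancel₀ h0, map_one]
      have h2 : τ x * τ x⁻¹ = 1 := by rw [← map_mul, mul_inv_cancel₀ h0, map_one]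
      calc σ x⁻¹ = (τ x * τ x⁻¹) * σ x⁻¹ := by rw [h2, one_mul]
        _ = τ x⁻¹ * (σ x * σ x⁻¹) := by rw [hx]; ring
        _ = τ x⁻¹ := by rw [h1, mul_one]

end Pool.Agent.V1156.Ins
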