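import Pool.Agent.V1156.Ins.Line

/-! The preimage of a general line has gonality one. -/

set_option autoImplicit false
set_option linter.unusedSectionVars false

namespace Pool.Agent.V1156.Ins

open MvPolynomial

variable {k : Type*} [Field k] {p : ℕ} [hp : Fact p.Prime] [CharP k p] [IsAlgClosed k]

/-- the generic point of the line -/
noncomputable def xi (k : Type*) [Field k] (e : Fin 3 → k) : Fin 3 → Rf k 3 :=
  fun i => algebraMap k (Rf k 3) (vA e i) + jj k 3 (X 0) * algebraMap k (Rf k 3) (vB e i)

theorem jjC (a : k) : jj k 3 (C a) = algebraMap k (Rf k 3) a := by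
  rw [← algebraMap_eq]
  exact (IsScalarTower.algebraMap_apply k (MvPolynomial (Fin 3) k) (Rf k 3) a).symm

theorem jj_parL_inl (e : Fin 3 → k) (i : Fin 3) :
    jj k 3 (parL k p e (Sum.inl i)) = jj k 3 (X 1) * xi k e i ^ p := by
  simp only [parL, Sum.elim_inl, Pi.smul_apply, smul_eq_mul, pw, map_mul, map_pow, map_add, xi,
    jjC]

theorem jj_parL_inr (e : Fin 3 → k) (i : Fin 3) :
    jj k 3 (parL k p e (Sum.inr i)) = jj k 3 (X 2) * cr (xi k e) (pw (xi k e) (p * p)) i := by
  fin_cases i <;> simp only [parL, Sum.elim_inr, Pi.smul_apply, smul_eq_mul, pw, map_mul, map_pow,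
    map_add, map_sub, xi, jjC, cr_zero, cr_one, cr_two, Fin.zero_eta, Fin.mk_one, Fin.reduceFinMk]

theorem irred_line {c e : Fin 3 → k} (hce : pw e p = c) (he : moore (p * p) e ≠ 0) :
    Irred (preLine k p c) := irred_of_ker (aeval (parL k p e)) (ideal_line hce he)

theorem pow_q_ne : (p * p : ℕ) ≠ 0 := Nat.mul_ne_zero hp.out.ne_zero hp.out.ne_zero

theorem gonality_line {c e : Fin 3 → k} (hce : pw e p = c) (he : moore (p * p) e ≠ 0)
    [hirr : Irred (preLine k p c)] : gonality k (functionField (preLine k p c)) = 1 := by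
  obtain ⟨ι, hι, hιc⟩ := exists_embed (Z := preLine k p c) (aeval (parL k p e)) (ideal_line hce he)
  have h1 : ∀ i, ι (coord (preLine k p c) (Sum.inl i)) = jj k 3 (X 1) * xi k e i ^ p := by
    intro i
    rw [hιc, aeval_X, ← jj_parL_inl]
  have h2 : ∀ i, ι (coord (preLine k p c) (Sum.inr i)) =
      jj k 3 (X 2) * cr (xi k e) (pw (xi k e) (p * p)) i := by
    intro i
    rw [hιc, aeval_X, ← jj_parL_inr]
  let f : functionField (preLine k p c) →ₐ[k] Rf k 3 := ι.comp (functionField (preLine k p c)).val
  have hf : Function.Injective f := f.toRingHom.injective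
  set C := cr (xi k e) (pw (xi k e) (p * p)) with hC
  have hfX : ∀ i j, f (ratioX (preLine k p c) i j) = xi k e i ^ p / xi k e j ^ p := by
    intro i j
    change ι (coord (preLine k p c) (Sum.inl i) / coord (preLine k p c) (Sum.inl j)) = _
    rw [map_div₀, h1, h1, mul_div_mul_left _ _ (X_ne 1)]
  have hfY : ∀ i j, f (ratioY (preLine k p c) i j) = C i / C j := by
    intro i j
    change ι (coord (preLine k p c) (Sum.inr i) / coord (preLine k p c) (Sum.inr j)) = _
    rw [map_div₀, h2, h2, mul_div_mul_left _ _ (X_ne 2)]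
  have he0 := e0_ne he
  have he0' : algebraMap k (Rf k 3) (e 0) ≠ 0 := by simpa using he0
  have hp1 : 1 < p := hp.out.one_lt
  have hpp : 1 < p * p := by nlinarith
  set τ := jj k 3 (X 0) with hτ
  set E : Fin 3 → Rf k 3 := fun i => algebraMap k (Rf k 3) (e i) with hE
  have hx1 : xi k e 1 = - E 0 := by
    simp [xi, vA, vB, hE]
  have hx2 : xi k e 2 = - (E 0 * τ) := by
    simp [xi, vA, vB, hE, hτ, mul_comm]
  have hdt : dt E (xi k e) = 0 := by
    simp [dt, xi, vA, vB, hE]
    ring
  -- the number `D`
  have hD : dt E (pw (xi k e) (p * p)) ≠ 0 := by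
    intro h0
    have hpoly : dt (fun i => (MvPolynomial.C (e i) : MvPolynomial (Fin 3) k))
        (pw (fun i => MvPolynomial.C (vA e i) + X 0 * MvPolynomial.C (vB e i)) (p * p)) = 0 := by
      apply IsFractionRing.injective (MvPolynomial (Fin 3) k) (Rf k 3)
      rw [map_zero, ← h0]
      change jj k 3 _ = _
      simp only [dt, pw, map_add, map_mul, map_pow, jjC, xi, hE]
    have hval : ∀ v : k, dt e (pw (vA e + v • vB e) (p * p)) = 0 := by
      intro v
      have := congrArg (eval ![v, 0, 0]) hpoly
      simp only [dt, pw, map_add, map_mul, map_pow, eval_C, eval_X, map_zero,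
        Matrix.cons_val_zero] at this
      simpa [dt, pw] using this
    have hA : dt e (pw (vA e) (p * p)) = 0 := by simpa using hval 0
    have hB : dt e (pw (vB e) (p * p)) = 0 := by
      have h3 := hval 1
      rw [one_smul] at h3
      have h4 : pw (vA e + vB e) (p * p) = pw (vA e) (p * p) + pw (vB e) (p * p) := by
        ext i
        have := add_pow_char_pow (p := p) (n := 2) (vA e i) (vB e i)
        rw [sq] at this
        exact this
      rw [h4] at h3
      have h5 : dt e (pw (vA e) (p * p) + pw (vB e) (p * p)) =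
          dt e (pw (vA e) (p * p)) + dt e (pw (vB e) (p * p)) := by
        simp only [dt, Pi.add_apply]; ring
      rw [h5, hA, zero_add] at h3
      exact h3
    simp only [dt, pw, vA, vB, Matrix.cons_val_zero, Matrix.cons_val_one, Matrix.cons_val,
      neg_pow_q, zero_pow (pow_q_ne (p := p))] at hA hB
    -- so `e ^ q` is proportional to `e`
    have h6 : pw e (p * p) = (e 0 ^ (p * p) / e 0) • e := by
      ext i
      fin_cases i
      · simp [pw, he0]
      · simp only [pw, Fin.mk_one, Pi.smul_apply, smul_eq_mul]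
        field_simp
        linear_combination hA
      · simp only [pw, Fin.reduceFinMk, Pi.smul_apply, smul_eq_mul]
        field_simp
        linear_combination hB
    apply he
    have h7 : pw e (p * p * (p * p)) = (e 0 ^ (p * p) / e 0) ^ (p * p) • pw e (p * p) := by
      rw [← pw_pw]
      conv_lhs => rw [h6]
      rw [pw_smul]
    rw [moore, h7, cr_smul_right, cr_self]
    simp [dt]
  -- the parameter
  have hcc := cr_cr_right E (xi k e) (pw (xi k e) (p * p))
  rw [hdt, zero_smul, sub_zero, ← hC] at hcc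
  have hc1 : E 2 * C 0 - E 0 * C 2 = dt E (pw (xi k e) (p * p)) * xi k e 1 := by
    have := congrFun hcc 1
    simpa using this
  have hc2 : E 0 * C 1 - E 1 * C 0 = dt E (pw (xi k e) (p * p)) * xi k e 2 := by
    have := congrFun hcc 2
    simpa using this
  have hC0 : C 0 ≠ 0 := by
    intro h
    rw [h, mul_zero, zero_sub] at hc1
    simp only [hC, cr_zero, pw, hx1, hx2] at h
    have h3 : (-E 0) ^ (p * p + 1) * (τ ^ (p * p) - τ) = 0 := by
      rw [← h]
      have : -(E 0 * τ) = -E 0 * τ := by ring
      rw [this, mul_pow, pow_succ]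
      ring
    rcases mul_eq_zero.1 h3 with h4 | h4
    · exact pow_ne_zero _ (neg_ne_zero.2 he0') h4
    · exact X_pow_ne (k := k) (0 : Fin 3) hpp (sub_eq_zero.1 h4)
  let z : functionField (preLine k p c) :=
    (algebraMap k _ (e 0) * ratioY (preLine k p c) 1 0 - algebraMap k _ (e 1)) /
      (algebraMap k _ (e 2) - algebraMap k _ (e 0) * ratioY (preLine k p c) 2 0)
  have hfz : f z = τ := by
    simp only [z, map_div₀, map_sub, map_mul, AlgHom.commutes, hfY]
    have e1 : E 0 * (C 1 / C 0) - E 1 = (E 0 * C 1 - E 1 * C 0) / C 0 := by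
      field_simp
    have e2 : E 2 - E 0 * (C 2 / C 0) = (E 2 * C 0 - E 0 * C 2) / C 0 := by
      field_simp
    change (E 0 * (C 1 / C 0) - E 1) / (E 2 - E 0 * (C 2 / C 0)) = τ
    rw [e1, e2, hc1, hc2, div_div_div_cancel_right₀ hC0, mul_div_mul_left _ _ hD, hx1, hx2]
    rw [neg_div_neg_eq, mul_div_cancel_left₀ _ he0']
  have hfΞ : ∀ i, f (algebraMap k _ (vA e i) + z * algebraMap k _ (vB e i)) = xi k e i := by
    intro i
    rw [map_add, map_mul, AlgHom.commutes, AlgHom.commutes, hfz]
    rfl
  have htop : IntermediateField.adjoin k {z} = ⊤ := by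
    have hz : z ∈ IntermediateField.adjoin k {z} := IntermediateField.mem_adjoin_simple_self k z
    have hΞ : ∀ i, algebraMap k _ (vA e i) + z * algebraMap k _ (vB e i) ∈
        IntermediateField.adjoin k {z} := fun i =>
      add_mem (IntermediateField.algebraMap_mem _ _) (mul_mem hz
        (IntermediateField.algebraMap_mem _ _))
    set Ξ : Fin 3 → functionField (preLine k p c) :=
      fun i => algebraMap k _ (vA e i) + z * algebraMap k _ (vB e i) with hΞdef
    have hcrΞ : ∀ i, cr Ξ (pw Ξ (p * p)) i ∈ IntermediateField.adjoin k {z} := by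
      intro i
      fin_cases i
      · exact sub_mem (mul_mem (hΞ 1) (pow_mem (hΞ 2) _)) (mul_mem (hΞ 2) (pow_mem (hΞ 1) _))
      · exact sub_mem (mul_mem (hΞ 2) (pow_mem (hΞ 0) _)) (mul_mem (hΞ 0) (pow_mem (hΞ 2) _))
      · exact sub_mem (mul_mem (hΞ 0) (pow_mem (hΞ 1) _)) (mul_mem (hΞ 1) (pow_mem (hΞ 0) _))
    have hfcr : ∀ i, f (cr Ξ (pw Ξ (p * p)) i) = C i := by
      intro i
      have := map_cr f.toRingHom Ξ (pw Ξ (p * p)) i
      change f (cr Ξ (pw Ξ (p * p)) i) = cr (fun i => f (Ξ i)) (fun i => f (pw Ξ (p * p) i)) i at this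
      rw [this]
      simp only [pw, map_pow, hΞdef, hfΞ]
      rfl
    apply eq_top_of_ratios
    · intro i j
      have : ratioX (preLine k p c) i j = Ξ i ^ p / Ξ j ^ p := by
        apply hf
        rw [hfX, map_div₀, map_pow, map_pow]
        simp only [hΞdef, hfΞ]
      rw [this]
      exact div_mem (pow_mem (hΞ i) _) (pow_mem (hΞ j) _)
    · intro i j
      have : ratioY (preLine k p c) i j = cr Ξ (pw Ξ (p * p)) i / cr Ξ (pw Ξ (p * p)) j := by
        apply hf
        rw [hfY, map_div₀, hfcr, hfcr]
      rw [this]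
      exact div_mem (hcrΞ i) (hcrΞ j)
  have htr : Transcendental k z := by
    intro h
    have h3 : IsAlgebraic k (f z) := h.algHom f
    rw [hfz] at h3
    have h4 : IsAlgebraic k (X 0 : MvPolynomial (Fin 3) k) := by
      rw [← isAlgebraic_algHom_iff (IsScalarTower.toAlgHom k (MvPolynomial (Fin 3) k) (Rf k 3))
        (IsFractionRing.injective (MvPolynomial (Fin 3) k) (Rf k 3))]
      exact h3
    exact MvPolynomial.transcendental_X k 0 h4
  have hmem : (1 : ℕ) ∈ {d | 0 < d ∧ ∃ z : functionField (preLine k p c), Transcendental k z ∧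
      Module.finrank (IntermediateField.adjoin k {z}) (functionField (preLine k p c)) = d} := by
    refine ⟨one_pos, z, htr, ?_⟩
    rw [IntermediateField.finrank_eq_one_iff_eq_top]
    exact htop
  unfold gonality
  apply le_antisymm (Nat.sInf_le hmem)
  exact (Nat.sInf_mem ⟨1, hmem⟩).1

end Pool.Agent.V1156.Ins
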