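import Pool.Agent.V1156.Ins.Surf

/-! Polynomial lemmas in positive characteristic. -/

set_option autoImplicit false
set_option linter.unusedSectionVars false

namespace Pool.Agent.V1156.Ins

open MvPolynomial

variable {k : Type*} [Field k] {p : ℕ} [hp : Fact p.Prime] [CharP k p] [IsAlgClosed k]

/-- a polynomial all of whose partial derivatives vanish is a `p`-th power -/
theorem exists_pow_of_pderiv {n : ℕ} (h : MvPolynomial (Fin n) k)
    (hd : ∀ i, pderiv i h = 0) : ∃ z, h = z ^ p := by
  classical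
  have hdiv : ∀ m ∈ h.support, ∀ i, p ∣ m i := by
    intro m hm i
    by_cases h0 : m i = 0
    · rw [h0]; exact dvd_zero p
    have h1 := congrArg (coeff (m - Finsupp.single i 1)) (hd i)
    have hle : Finsupp.single i 1 ≤ m := by
      rw [Finsupp.single_le_iff]
      omega
    rw [coeff_pderiv, tsub_add_cancel_of_le hle, coeff_zero] at h1
    have h2 := (mul_eq_zero.1 h1).resolve_left (mem_support_iff.1 hm)
    have h3 : ((m i : ℕ) : k) = 0 := by
      have : ((m - Finsupp.single i 1 : Fin n →₀ ℕ) i) + 1 = m i := by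
        rw [Finsupp.tsub_apply, Finsupp.single_eq_same]
        omega
      rw [← this]
      push_cast
      exact h2
    exact (CharP.cast_eq_zero_iff k p _).1 h3
  have hroot : ∀ c : k, ∃ d : k, d ^ p = c := fun c =>
    IsAlgClosed.exists_pow_nat_eq c (n := p) hp.out.pos
  choose g hg using hroot
  let dv : (Fin n →₀ ℕ) → (Fin n →₀ ℕ) := fun m => m.mapRange (· / p) (Nat.zero_div p)
  refine ⟨∑ m ∈ h.support, monomial (dv m) (g (coeff m h)), ?_⟩
  rw [sum_pow_char]
  conv_lhs => rw [← support_sum_monomial_coeff h]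
  apply Finset.sum_congr rfl
  intro m hm
  have hm' : p • dv m = m := by
    refine Finsupp.ext fun i => ?_
    simp only [dv, Finsupp.smul_apply, Finsupp.mapRange_apply, smul_eq_mul]
    rw [Nat.mul_div_cancel' (hdiv m hm i)]
  rw [monomial_pow, hg, hm']

theorem totalDegree_pderiv_le' {n : ℕ} (g : MvPolynomial (Fin n) k) (i : Fin n) {d : ℕ}
    (h : g.totalDegree ≤ d + 1) : (pderiv i g).totalDegree ≤ d := by
  classical
  refine Finset.sup_le fun m hm => ?_
  rw [mem_support_iff, coeff_pderiv] at hm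
  have h1 : m + Finsupp.single i 1 ∈ g.support := by
    rw [mem_support_iff]
    intro h0
    rw [h0, zero_mul] at hm
    exact hm rfl
  have h2 := le_totalDegree h1
  rw [Finsupp.sum_add_index' (fun _ => rfl) (fun _ _ _ => rfl), Finsupp.sum_single_index rfl] at h2
  omega

/-- a tuple proportional to a coprime tuple is a multiple of it -/
theorem exists_mul_of_coprime {R : Type*} [CommRing R] [IsDomain R] [UniqueFactorizationMonoid R]
    {z w : Fin 3 → R} (hw : w ≠ 0) (hcop : ∀ q, (∀ i, q ∣ w i) → IsUnit q)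
    (h : ∀ i j, w i * z j = w j * z i) : ∃ η : R, z = η • w := by
  obtain ⟨j, hj⟩ := Function.ne_iff.1 hw
  obtain ⟨B, A, c, hBA, hB, hA⟩ := UniqueFactorizationMonoid.exists_reduced_factors (w j) hj (z j)
  have hc : c ≠ 0 := by
    rintro rfl
    rw [zero_mul] at hB
    exact hj hB.symm
  have hrel : ∀ i, z i * B = A * w i := by
    intro i
    apply mul_left_cancel₀ hc
    have := h j i
    rw [← hB, ← hA] at this
    linear_combination this
  have hBw : ∀ i, B ∣ w i := by
    intro i
    apply hBA.dvd_of_dvd_mul_left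
    exact ⟨z i, by rw [← hrel i, mul_comm]⟩
  obtain ⟨u, hu⟩ := (hcop B hBw).exists_right_inv
  refine ⟨A * u, ?_⟩
  ext i
  simp only [Pi.smul_apply, smul_eq_mul]
  have := hrel i
  calc z i = z i * (B * u) := by rw [hu, mul_one]
    _ = (z i * B) * u := by ring
    _ = A * u * w i := by rw [this]; ring

theorem coprime_pow {R : Type*} [CommRing R] [IsDomain R] [UniqueFactorizationMonoid R]
    {w : Fin 3 → R} (hw : w ≠ 0) (hcop : ∀ q, (∀ i, q ∣ w i) → IsUnit q) {n : ℕ} :
    ∀ q, (∀ i, q ∣ pw w n i) → IsUnit q := by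
  intro q hq
  by_contra hu
  obtain ⟨j, hj⟩ := Function.ne_iff.1 hw
  have hq0 : q ≠ 0 := by
    rintro rfl
    have := hq j
    rw [zero_dvd_iff] at this
    exact pow_ne_zero n hj this
  obtain ⟨π, hπ, hπq⟩ := WfDvdMonoid.exists_irreducible_factor hu hq0
  apply hπ.not_isUnit
  apply hcop
  intro i
  exact hπ.prime.dvd_of_dvd_pow (hπq.trans (hq i))

theorem totalDegree_pow' {n : ℕ} {g : MvPolynomial (Fin n) k} (hg : g ≠ 0) (m : ℕ) :
    (g ^ m).totalDegree = m * g.totalDegree := by
  induction m with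
  | zero => simp
  | succ m ih =>
    rw [pow_succ, totalDegree_mul_of_isDomain (pow_ne_zero _ hg) hg, ih]
    ring

/-- one half of the argument -/
theorem half {n : ℕ} {x y : Fin 3 → MvPolynomial (Fin n) k} (hy0 : y ≠ 0)
    (hy : ∀ q, (∀ i, q ∣ y i) → IsUnit q) (hxy : dt x (pw y p) = 0) {i : Fin n}
    (h : cr x (fun j => pderiv i (x j)) ≠ 0) {a b : ℕ} (ha : ∀ j, (x j).totalDegree ≤ a)
    (hb : ∃ j, (y j) ≠ 0 ∧ b ≤ (y j).totalDegree) : p * b + 1 ≤ 2 * a := by
  set Dx : Fin 3 → MvPolynomial (Fin n) k := fun j => pderiv i (x j) with hDx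
  have hyp : ∀ j, pderiv i (y j ^ p) = 0 := by
    intro j
    rw [Derivation.leibniz_pow, nsmul_eq_mul, CharP.cast_eq_zero, zero_mul]
  have hDxy : dt Dx (pw y p) = 0 := by
    have := congrArg (pderiv i) hxy
    simp only [dt, pw, map_add, Derivation.leibniz, hyp, map_zero, smul_eq_mul] at this
    simp only [dt, pw, hDx]
    linear_combination this
  obtain ⟨η, hη⟩ := exists_mul_of_coprime (z := cr x Dx) (w := pw y p)
    (fun h0 => hy0 ((by
      ext1 j
      have := congrFun h0 j
      simp only [pw, Pi.zero_apply] at this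
      exact pow_eq_zero_iff hp.out.ne_zero |>.1 this)))
    (coprime_pow hy0 hy) (fun i j => prop_of_dt hxy hDxy i j)
  have hη0 : η ≠ 0 := by
    rintro rfl
    rw [zero_smul] at hη
    exact h hη
  obtain ⟨j, hj0, hjb⟩ := hb
  have h1 := congrFun hη j
  simp only [Pi.smul_apply, smul_eq_mul, pw] at h1
  have h2 : (cr x Dx j).totalDegree = η.totalDegree + p * (y j).totalDegree := by
    rw [h1, totalDegree_mul_of_isDomain hη0 (pow_ne_zero _ hj0), totalDegree_pow' hj0]
  have ha0 : a ≠ 0 := by
    rintro rfl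
    have : Dx = 0 := by
      ext1 l
      simp only [hDx, Pi.zero_apply]
      have h3 := Nat.le_zero.1 (ha l)
      rw [totalDegree_eq_zero_iff_eq_C] at h3
      rw [h3, pderiv_C]
    apply h
    rw [this]
    ext1 l
    fin_cases l <;> simp
  obtain ⟨a', rfl⟩ := Nat.exists_eq_succ_of_ne_zero ha0
  have hD : ∀ l, (Dx l).totalDegree ≤ a' := fun l => totalDegree_pderiv_le' _ _ (ha l)
  have hcr : ∀ l m, (x l * Dx m - x m * Dx l).totalDegree ≤ 2 * a' + 1 := by
    intro l m
    refine (totalDegree_sub _ _).trans (max_le ?_ ?_)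
    · refine (totalDegree_mul _ _).trans ?_
      have := ha l
      have := hD m
      omega
    · refine (totalDegree_mul _ _).trans ?_
      have := ha m
      have := hD l
      omega
  have h4 : (cr x Dx j).totalDegree ≤ 2 * a' + 1 := by
    fin_cases j
    · exact hcr 1 2
    · exact hcr 2 0
    · exact hcr 0 1
  have h5 : p * b ≤ p * (y j).totalDegree := Nat.mul_le_mul_left _ hjb
  omega

end Pool.Agent.V1156.Ins
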