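import Pool.Agent.V1156.Ins.Deg
import Pool.Agent.V1156.Ins.PolyL

/-! The surface is not rational. -/

set_option autoImplicit false
set_option linter.unusedSectionVars false

namespace Pool.Agent.V1156.Ins

open MvPolynomial

variable {k : Type*} [Field k] {p : ℕ} [hp : Fact p.Prime] [CharP k p] [IsAlgClosed k]

/-- a point over the field of fractions is given by a coprime triple of polynomials -/
theorem exists_coprime {n : ℕ} {K : Type*} [Field K] [Algebra k K]
    (φ : MvPolynomial (Fin n) k →ₐ[k] K) (hφ : Function.Injective φ) (u v : K)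
    (hu : ∃ F G, φ G ≠ 0 ∧ u * φ G = φ F) (hv : ∃ F G, φ G ≠ 0 ∧ v * φ G = φ F) :
    ∃ x : Fin 3 → MvPolynomial (Fin n) k, x 0 ≠ 0 ∧ φ (x 1) = u * φ (x 0) ∧
      φ (x 2) = v * φ (x 0) ∧ ∀ q, (∀ i, q ∣ x i) → IsUnit q := by
  classical
  let P : ℕ → Prop := fun d => ∃ x : Fin 3 → MvPolynomial (Fin n) k, x 0 ≠ 0 ∧
    φ (x 1) = u * φ (x 0) ∧ φ (x 2) = v * φ (x 0) ∧ (x 0).totalDegree = d
  have hP : ∃ d, P d := by
    obtain ⟨F, G, hG, h1⟩ := hu
    obtain ⟨F', G', hG', h2⟩ := hv
    refine ⟨_, ![G * G', F * G', F' * G], ?_, ?_, ?_, rfl⟩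
    · simp only [Matrix.cons_val_zero]
      intro h
      have := congrArg φ h
      rw [map_mul, map_zero] at this
      exact mul_ne_zero hG hG' this
    · simp only [Matrix.cons_val_zero, Matrix.cons_val_one, map_mul, ← h1]
      ring
    · simp only [Matrix.cons_val_zero, Matrix.cons_val, map_mul, ← h2]
      ring
  obtain ⟨x, hx0, h1, h2, hd⟩ := Nat.find_spec hP
  refine ⟨x, hx0, h1, h2, ?_⟩
  intro q hq
  choose z hz using hq
  have hq0 : q ≠ 0 := by
    rintro rfl
    apply hx0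
    rw [hz 0, zero_mul]
  have hφq : φ q ≠ 0 := fun h => hq0 (hφ (by rw [h, map_zero]))
  have hz0 : z 0 ≠ 0 := by
    intro h
    apply hx0
    rw [hz 0, h, mul_zero]
  have hPz : P (z 0).totalDegree := by
    refine ⟨z, hz0, ?_, ?_, rfl⟩
    · apply mul_left_cancel₀ hφq
      rw [← map_mul, ← hz, h1, hz 0, map_mul]
      ring
    · apply mul_left_cancel₀ hφq
      rw [← map_mul, ← hz, h2, hz 0, map_mul]
      ring
  have hle := Nat.find_min' hP hPz
  rw [← hd, hz 0, totalDegree_mul_of_isDomain hq0 hz0] at hle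
  have h3 : q.totalDegree = 0 := by omega
  rw [totalDegree_eq_zero_iff_eq_C] at h3
  rw [h3]
  have hc : coeff 0 q ≠ 0 := by
    intro h
    rw [h, C_0] at h3
    exact hq0 h3
  exact (IsUnit.mk0 _ hc).map C

theorem exists_max (x : Fin 3 → MvPolynomial (Fin 2) k) (hx : x ≠ 0) :
    ∃ a : ℕ, (∀ j, (x j).totalDegree ≤ a) ∧ ∃ j, x j ≠ 0 ∧ a ≤ (x j).totalDegree := by
  obtain ⟨j, -, hj⟩ := Finset.exists_max_image (Finset.univ : Finset (Fin 3))
    (fun j => (x j).totalDegree) ⟨0, Finset.mem_univ _⟩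
  refine ⟨(x j).totalDegree, fun i => hj i (Finset.mem_univ i), ?_⟩
  by_cases h : x j = 0
  · obtain ⟨i, hi⟩ := Function.ne_iff.1 hx
    refine ⟨i, hi, ?_⟩
    rw [h, totalDegree_zero]
    exact Nat.zero_le _
  · exact ⟨j, h, le_rfl⟩

theorem not_both {x y : Fin 3 → MvPolynomial (Fin 2) k} (hx0 : x ≠ 0) (hy0 : y ≠ 0)
    (hx : ∀ q, (∀ i, q ∣ x i) → IsUnit q) (hy : ∀ q, (∀ i, q ∣ y i) → IsUnit q)
    (h1 : dt x (pw y p) = 0) (h2 : dt (pw x p) y = 0) :
    (∀ i, cr x (fun j => pderiv i (x j)) = 0) ∨ (∀ i, cr y (fun j => pderiv i (y j)) = 0) := by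
  by_contra hne
  push Not at hne
  obtain ⟨⟨i, hi⟩, i', hi'⟩ := hne
  obtain ⟨a, ha, ha'⟩ := exists_max x hx0
  obtain ⟨b, hb, hb'⟩ := exists_max y hy0
  have g1 := half hy0 hy h1 hi ha hb'
  have g2 := half hx0 hx (by rw [dt_comm]; exact h2) hi' hb ha'
  have := hp.out.two_le
  nlinarith

/-- from vanishing of the derivatives of the ratio to a `p`-th root -/
theorem exists_root_ratio {x : Fin 3 → MvPolynomial (Fin 2) k} (hx0 : x 0 ≠ 0)
    (h : ∀ i, cr x (fun j => pderiv i (x j)) = 0) : ∃ z, x 1 * x 0 ^ (p - 1) = z ^ p := by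
  apply exists_pow_of_pderiv
  intro i
  have h2 := congrFun (h i) 2
  simp only [cr_two, Pi.zero_apply] at h2
  have hpow : pderiv i (x 0 ^ p) = 0 := by
    rw [Derivation.leibniz_pow, nsmul_eq_mul, CharP.cast_eq_zero, zero_mul]
  have hp1 : x 0 ^ (p - 1) * x 0 = x 0 ^ p := by
    rw [← pow_succ, Nat.sub_add_cancel hp.out.one_le]
  have h3 : pderiv i (x 1 * x 0 ^ (p - 1) * x 0) = x 0 ^ p * pderiv i (x 1) := by
    rw [mul_assoc, hp1, Derivation.leibniz, hpow, smul_zero, zero_add, smul_eq_mul]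
  rw [Derivation.leibniz, smul_eq_mul, smul_eq_mul] at h3
  apply mul_left_cancel₀ hx0
  rw [mul_zero]
  linear_combination h3 + x 0 ^ (p - 1) * h2 - (pderiv i (x 1)) * hp1

theorem not_rational {a b : functionField (surf k p)} (hab : Dominant k a b)
    (htop : IntermediateField.adjoin k {a, b} = ⊤) : False := by
  obtain ⟨ι, hι, h1, h2⟩ := exists_iota k p
  let f : functionField (surf k p) →ₐ[k] Rf k 4 := ι.comp (functionField (surf k p)).val
  have hf : Function.Injective f := f.toRingHom.injective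
  have hfX : ∀ i j, f (ratioX (surf k p) i j) = nu k i ^ p / nu k j ^ p :=
    fun i j => iota_ratioX h1 i j
  have hfY : ∀ i j, f (ratioY (surf k p) i j) = cc k p i / cc k p j :=
    fun i j => iota_ratioY h2 i j
  let φ : MvPolynomial (Fin 2) k →ₐ[k] functionField (surf k p) := aeval ![a, b]
  have hφ : Function.Injective φ := hab
  have hrep : ∀ u : functionField (surf k p), ∃ F G, φ G ≠ 0 ∧ u * φ G = φ F := by
    intro u
    have hu : u ∈ IntermediateField.adjoin k (Set.range ![a, b]) := by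
      have : Set.range ![a, b] = {a, b} := by
        simp [Set.pair_comm]
      rw [this, htop]
      exact IntermediateField.mem_top
    rw [IntermediateField.mem_adjoin_range_iff] at hu
    obtain ⟨F, G, hFG⟩ := hu
    by_cases hG : φ G = 0
    · refine ⟨0, 1, by rw [map_one]; exact one_ne_zero, ?_⟩
      change u = φ F / φ G at hFG
      rw [hFG, hG, div_zero, map_zero, zero_mul]
    · refine ⟨F, G, hG, ?_⟩
      change u = φ F / φ G at hFG
      rw [hFG, div_mul_cancel₀ _ hG]
  obtain ⟨x, hx0, hx1, hx2, hxc⟩ := exists_coprime φ hφ (ratioX (surf k p) 1 0)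
    (ratioX (surf k p) 2 0) (hrep _) (hrep _)
  obtain ⟨y, hy0, hy1, hy2, hyc⟩ := exists_coprime φ hφ (ratioY (surf k p) 1 0)
    (ratioY (surf k p) 2 0) (hrep _) (hrep _)
  have hx0' : x ≠ 0 := fun h => hx0 (by rw [h]; rfl)
  have hy0' : y ≠ 0 := fun h => hy0 (by rw [h]; rfl)
  have hφx0 : φ (x 0) ≠ 0 := fun h => hx0 (hφ (by rw [h, map_zero]))
  have hφy0 : φ (y 0) ≠ 0 := fun h => hy0 (hφ (by rw [h, map_zero]))
  have hν0 : nu k 0 = 1 := rfl
  have hfx : ∀ i, f (φ (x i)) = f (φ (x 0)) * nu k i ^ p := by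
    intro i
    fin_cases i
    · simp [hν0]
    · change f (φ (x 1)) = f (φ (x 0)) * nu k 1 ^ p
      rw [hx1, map_mul, hfX, hν0, one_pow, div_one, mul_comm]
    · change f (φ (x 2)) = f (φ (x 0)) * nu k 2 ^ p
      rw [hx2, map_mul, hfX, hν0, one_pow, div_one, mul_comm]
  have hc0 : cc k p 0 ≠ 0 := cc_zero_ne
  have hfy : ∀ i, f (φ (y i)) = f (φ (y 0)) / cc k p 0 * cc k p i := by
    intro i
    fin_cases i
    · change f (φ (y 0)) = f (φ (y 0)) / cc k p 0 * cc k p 0
      rw [div_mul_cancel₀ _ hc0]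
    · change f (φ (y 1)) = f (φ (y 0)) / cc k p 0 * cc k p 1
      rw [hy1, map_mul, hfY]
      field_simp
    · change f (φ (y 2)) = f (φ (y 0)) / cc k p 0 * cc k p 2
      rw [hy2, map_mul, hfY]
      field_simp
  have hfφ : Function.Injective (fun F => f (φ F)) := hf.comp hφ
  have e1 : dt x (pw y p) = 0 := by
    apply hfφ
    have hd := dt_cr_left (nu k) (pw (nu k) (p * p))
    have hd2 : dt (pw (nu k) p) (pw (cc k p) p) = 0 := by
      rw [dt_pw_one]
      change dt (nu k) (cr (nu k) (pw (nu k) (p * p))) ^ p = 0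
      rw [hd, zero_pow hp.out.ne_zero]
    simp only [dt, pw, map_add, map_mul, map_pow, map_zero, hfx 1, hfx 2, hfy 1, hfy 2]
    have h3 : f (φ (y 0)) = f (φ (y 0)) / cc k p 0 * cc k p 0 := hfy 0
    have h4 : f (φ (x 0)) = f (φ (x 0)) * nu k 0 ^ p := hfx 0
    simp only [dt, pw] at hd2
    generalize f (φ (y 0)) / cc k p 0 = c at h3 ⊢
    rw [h3, h4, hν0, one_pow, mul_one, mul_pow, mul_pow, mul_pow]
    rw [hν0, one_pow, one_mul] at hd2
    linear_combination (f (φ (x 0)) * c ^ p) * hd2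
  have e2 : dt (pw x p) y = 0 := by
    apply hfφ
    have hd := dt_cr_right (nu k) (pw (nu k) (p * p))
    have hd2 : dt (pw (pw (nu k) p) p) (cc k p) = 0 := by
      rw [pw_pw]
      exact hd
    simp only [dt, pw, map_add, map_mul, map_pow, map_zero, hfx 1, hfx 2, hfy 1, hfy 2]
    have h3 : f (φ (y 0)) = f (φ (y 0)) / cc k p 0 * cc k p 0 := hfy 0
    simp only [dt, pw] at hd2
    generalize f (φ (y 0)) / cc k p 0 = c at h3 ⊢
    rw [h3, mul_pow, mul_pow]
    rw [hν0, one_pow, one_pow, one_mul] at hd2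
    linear_combination (f (φ (x 0)) ^ p * c) * hd2
  rcases not_both hx0' hy0' hxc hyc e1 e2 with h | h
  · obtain ⟨z, hz⟩ := exists_root_ratio (p := p) hx0 h
    have h3 : (f (φ z) / f (φ (x 0))) ^ p = nu k 1 ^ p := by
      have h4 : f (φ (x 0)) ≠ 0 := fun h => hφx0 (hf (by rw [h, map_zero]))
      rw [div_pow, div_eq_iff (pow_ne_zero _ h4), ← map_pow, ← map_pow, ← hz, map_mul, map_mul,
        map_pow, map_pow, hfx 1]
      have : f (φ (x 0)) ^ p = f (φ (x 0)) ^ (p - 1) * f (φ (x 0)) := by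
        rw [← pow_succ, Nat.sub_add_cancel hp.out.one_le]
      rw [this]
      ring
    have h4 : f (φ z / φ (x 0)) = jj k 4 (X 0) := by
      rw [map_div₀]
      exact frobenius_inj _ p h3
    have h5 := iota_mem h1 h2 (φ z / φ (x 0))
    change f (φ z / φ (x 0)) ∈ _ at h5
    rw [h4] at h5
    exact r_not_mem (p := p) (fun w hw => hw) h5
  · obtain ⟨z, hz⟩ := exists_root_ratio (p := p) hy0 h
    have h4 : f (φ (y 0)) ≠ 0 := fun h => hφy0 (hf (by rw [h, map_zero]))
    have h3 : (f (φ z) / f (φ (y 0))) ^ p = cc k p 1 / cc k p 0 := by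
      rw [div_pow, div_eq_div_iff (pow_ne_zero _ h4) hc0, ← map_pow, ← map_pow, ← hz, map_mul,
        map_mul, map_pow, map_pow, hfy 1]
      have : f (φ (y 0)) ^ p = f (φ (y 0)) ^ (p - 1) * f (φ (y 0)) := by
        rw [← pow_succ, Nat.sub_add_cancel hp.out.one_le]
      rw [this]
      field_simp
    exact ratio_not_pow _ h3

/-- No dominant rational map from the surface to the plane has degree one. -/
theorem two_le_degree {a b : functionField (surf k p)} (hab : Dominant k a b) :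
    2 ≤ mapDegree k a b := by
  by_contra hlt
  push Not at hlt
  unfold mapDegree at hlt
  set F := IntermediateField.adjoin k {a, b} with hF
  have hfin : Module.Finite F (functionField (surf k p)) := by
    rw [← Module.rank_lt_aleph0_iff]
    exact hlt.trans (Cardinal.natCast_lt_aleph0 (n := 2))
  rw [← Module.finrank_eq_rank] at hlt
  have h1 : Module.finrank F (functionField (surf k p)) < 2 := by exact_mod_cast hlt
  have h2 : 0 < Module.finrank F (functionField (surf k p)) := Module.finrank_pos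
  have h3 : Module.finrank F (functionField (surf k p)) = 1 := by omega
  exact not_rational hab (IntermediateField.finrank_eq_one_iff_eq_top.1 h3)

end Pool.Agent.V1156.Ins
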