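import Pool.Agent.V1156.Ins.Deg

/-! The preimage of a general line is a rational curve. -/

set_option autoImplicit false
set_option linter.unusedSectionVars false

namespace Pool.Agent.V1156.Ins

open MvPolynomial

variable {k : Type*} [Field k] {p : ℕ} [hp : Fact p.Prime] [CharP k p] [IsAlgClosed k]

/-- the preimage of the line `c_0 x_0 + c_1 x_1 + c_2 x_2 = 0` under the first projection -/
def preLine (k : Type*) [Field k] (p : ℕ) (c : Fin 3 → k) : Set (Ix → k) :=
  preimageLine (surf k p) c

theorem mem_preLine {c x y : Fin 3 → k} : Sum.elim x y ∈ preLine k p c ↔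
    (x ≠ 0 ∧ y ≠ 0 ∧ dt x (pw y p) = 0 ∧ dt (pw x p) y = 0) ∧ dt c x = 0 := by
  unfold preLine preimageLine
  rw [Set.mem_ofPred_eq, surf, mem_zeros_iff, Fin.sum_univ_three]
  rfl

theorem neg_pow_q (a : k) : (-a) ^ (p * p) = -a ^ (p * p) := by
  have h := sub_pow_char_pow (p := p) (n := 2) (0 : k) a
  rw [sq] at h
  have h0 : (0 : k) ^ (p * p) = 0 := zero_pow (Nat.mul_ne_zero hp.out.ne_zero hp.out.ne_zero)
  rwa [zero_sub, h0, zero_sub] at h

theorem e0_ne {e : Fin 3 → k} (he : moore (p * p) e ≠ 0) : e 0 ≠ 0 := by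
  intro h
  apply he
  have hq : p * p ≠ 0 := Nat.mul_ne_zero hp.out.ne_zero hp.out.ne_zero
  simp [moore, dt, cr, pw, h, hq]

theorem cr_ne_of_line {e ξ : Fin 3 → k} (he : moore (p * p) e ≠ 0) (hξ : ξ ≠ 0)
    (h : dt e ξ = 0) : cr ξ (pw ξ (p * p)) ≠ 0 := by
  have hq : p * p ≠ 0 := Nat.mul_ne_zero hp.out.ne_zero hp.out.ne_zero
  intro h0
  obtain ⟨κ, hκ⟩ := exists_mul_of_cr hξ h0
  have hκ0 : κ ≠ 0 := by
    rintro rfl
    rw [zero_smul, pw_eq_zero hq] at hκ
    exact hξ hκ
  have step : ∀ a : Fin 3 → k, dt a ξ = 0 → dt (pw a (p * p)) ξ = 0 := by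
    intro a ha
    have h1 : dt (pw a (p * p)) (pw ξ (p * p)) = 0 := by
      rw [dt_pw_two, ha, zero_pow hq]
    rw [hκ, dt_smul_right] at h1
    exact (mul_eq_zero.1 h1).resolve_left hκ0
  have h1 := step e h
  have h2 := step _ h1
  rw [pw_pw] at h2
  have hne : cr (pw e (p * p)) (pw e (p * p * (p * p))) ≠ 0 := by
    intro h3
    apply he
    rw [moore, h3]
    simp [dt]
  obtain ⟨c, hc⟩ := exists_mul_of_dt h1 h2 hne
  rw [hc, dt_smul_right] at h
  rcases mul_eq_zero.1 h with h3 | h3
  · rw [h3, zero_smul] at hc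
    exact hξ hc
  · exact he h3

/-- the first basis vector of the line -/
def vA {A : Type*} [CommRing A] (e : Fin 3 → A) : Fin 3 → A := ![e 1, -e 0, 0]

/-- the second basis vector of the line -/
def vB {A : Type*} [CommRing A] (e : Fin 3 → A) : Fin 3 → A := ![e 2, 0, -e 0]

theorem dt_vA {A : Type*} [CommRing A] (e : Fin 3 → A) : dt e (vA e) = 0 := by
  simp [dt, vA]; ring

theorem dt_vB {A : Type*} [CommRing A] (e : Fin 3 → A) : dt e (vB e) = 0 := by
  simp [dt, vB]; ring

theorem exists_AB {e ξ : Fin 3 → k} (he : e 0 ≠ 0) (h : dt e ξ = 0) :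
    ξ = (-ξ 1 / e 0) • vA e + (-ξ 2 / e 0) • vB e := by
  simp only [dt] at h
  ext i
  fin_cases i
  · simp only [Fin.zero_eta, Pi.add_apply, Pi.smul_apply, vA, vB, Matrix.cons_val_zero,
      smul_eq_mul]
    field_simp
    linear_combination h
  · simp [vA, vB]
    field_simp
  · simp [vA, vB]
    field_simp

/-- the parametrization of the cone over the curve -/
noncomputable def parL (k : Type*) [Field k] (p : ℕ) (e : Fin 3 → k) : Ix → MvPolynomial (Fin 3) k :=
  Sum.elim ((X 1 : MvPolynomial (Fin 3) k) • pw (fun i => C (vA e i) + X 0 * C (vB e i)) p)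
    ((X 2 : MvPolynomial (Fin 3) k) • cr (fun i => C (vA e i) + X 0 * C (vB e i))
      (pw (fun i => C (vA e i) + X 0 * C (vB e i)) (p * p)))

theorem eval_parL {e : Fin 3 → k} (v : Fin 3 → k) : (fun i => eval v (parL k p e i)) =
    Sum.elim (v 1 • pw (vA e + v 0 • vB e) p)
      (v 2 • cr (vA e + v 0 • vB e) (pw (vA e + v 0 • vB e) (p * p))) := by
  ext i
  rcases i with i | i
  · simp [parL, pw]
  · fin_cases i <;> simp [parL, pw]

theorem eval_aeval_poly (T : k) (G : Ix → Polynomial k) (H : MvPolynomial Ix k) :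
    Polynomial.eval T (aeval G H) = eval (fun i => Polynomial.eval T (G i)) H := by
  have h6 : Polynomial.eval T (aeval G H) = Polynomial.aeval T (aeval G H) := by
    rw [Polynomial.coe_aeval_eq_eval]
  rw [h6, comp_aeval_apply, ← aeval_eq_eval]
  simp only [Polynomial.coe_aeval_eq_eval]

/-- the ideal of the curve is the kernel of the parametrization -/
theorem ideal_line {c e : Fin 3 → k} (hce : pw e p = c) (he : moore (p * p) e ≠ 0)
    (H : MvPolynomial Ix k) :
    H ∈ vanishingIdeal k (preLine k p c) ↔ aeval (parL k p e) H = 0 := by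
  have hinf : Infinite k := IsAlgClosed.instInfinite
  have he0 := e0_ne he
  have hon : ∀ a b : k, dt e (a • vA e + b • vB e) = 0 := by
    intro a b
    have : dt e (a • vA e + b • vB e) = a * dt e (vA e) + b * dt e (vB e) := by
      simp only [dt, Pi.add_apply, Pi.smul_apply, smul_eq_mul]; ring
    rw [this, dt_vA, dt_vB, mul_zero, mul_zero, add_zero]
  constructor
  · intro hH
    apply eval_zero_of_generic (N := X 1 * X 2) (mul_ne_zero (X_ne_zero 1) (X_ne_zero 2))
    intro v hv
    rw [map_mul, eval_X, eval_X] at hv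
    have h1 : v 1 ≠ 0 := left_ne_zero_of_mul hv
    have h2 : v 2 ≠ 0 := right_ne_zero_of_mul hv
    rw [eval_aeval, eval_parL]
    set ξ := vA e + v 0 • vB e with hξ
    have hξe : dt e ξ = 0 := by
      have := hon 1 (v 0)
      rwa [one_smul] at this
    have hξ0 : ξ ≠ 0 := by
      intro h
      have := congrFun h 1
      simp [hξ, vA, vB, he0] at this
    have hcr := cr_ne_of_line he hξ0 hξe
    have hmem : (Sum.elim (v 1 • pw ξ p) (v 2 • cr ξ (pw ξ (p * p))) : Ix → k) ∈
        preLine k p c := by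
      rw [mem_preLine]
      refine ⟨⟨?_, smul_ne_zero h2 hcr, ?_, ?_⟩, ?_⟩
      · apply smul_ne_zero h1
        rwa [Ne, pw_eq_zero hp.out.ne_zero]
      · rw [dt_smul_left, pw_smul, dt_smul_right, dt_pw_one, dt_cr_left, zero_pow hp.out.ne_zero,
          mul_zero, mul_zero]
      · rw [pw_smul, pw_pw, dt_smul_left, dt_smul_right, dt_cr_right, mul_zero, mul_zero]
      · rw [dt_smul_right, ← hce, dt_pw_one, hξe, zero_pow hp.out.ne_zero, mul_zero]
    have := hH _ hmem
    rwa [aeval_eq_eval] at this
  · intro hH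
    have e1 : ∀ a b l m : k, a ≠ 0 →
        eval (Sum.elim (l • pw (a • vA e + b • vB e) p)
          (m • cr (a • vA e + b • vB e) (pw (a • vA e + b • vB e) (p * p))) : Ix → k) H = 0 := by
      intro a b l m ha
      have h1 := congrArg (eval ![b / a, l * a ^ p, m * a ^ (1 + p * p)]) hH
      rw [eval_aeval, eval_parL, map_zero] at h1
      have h2 : a • vA e + b • vB e = a • (vA e + (b / a) • vB e) := by
        rw [smul_add, smul_smul, mul_div_cancel₀ _ ha]
      rw [h2, pw_smul, pw_smul, smul_smul, cr_smul_left, cr_smul_right, smul_smul, smul_smul]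
      have h3 : m * a * a ^ (p * p) = m * a ^ (1 + p * p) := by ring
      rw [h3]
      simpa using h1
    rintro P hP
    have hPe : P = Sum.elim (fun i => P (Sum.inl i)) (fun i => P (Sum.inr i)) := by
      ext i
      rcases i with i | i <;> rfl
    rw [aeval_eq_eval]
    rw [hPe] at hP ⊢
    generalize (fun i => P (Sum.inl i)) = x at hP ⊢
    generalize (fun i => P (Sum.inr i)) = y at hP ⊢
    rw [mem_preLine] at hP
    obtain ⟨⟨hx0, hy0, h1, h2⟩, h3⟩ := hP
    obtain ⟨ξ, rfl⟩ := exists_root p x
    have hξ0 : ξ ≠ 0 := by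
      rintro rfl
      apply hx0
      rw [pw_eq_zero hp.out.ne_zero]
    rw [← hce, dt_pw_one] at h3
    have hξe : dt e ξ = 0 := pow_eq_zero_iff hp.out.ne_zero |>.1 h3
    obtain ⟨m, rfl⟩ := eq_of_cr_ne h1 h2 (cr_ne_of_line he hξ0 hξe)
    have hAB := exists_AB he0 hξe
    generalize -ξ 1 / e 0 = a at hAB
    generalize -ξ 2 / e 0 = b at hAB
    rw [hAB]
    by_cases ha : a = 0
    · let Ξ : Fin 3 → Polynomial k := fun i => Polynomial.X * Polynomial.C (vA e i) +
        Polynomial.C (b * vB e i)
      let G : Ix → Polynomial k := Sum.elim (pw Ξ p) ((Polynomial.C m : Polynomial k) •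
        cr Ξ (pw Ξ (p * p)))
      have hGT : ∀ T : k, (fun i => Polynomial.eval T (G i)) =
          Sum.elim (pw (T • vA e + b • vB e) p)
            (m • cr (T • vA e + b • vB e) (pw (T • vA e + b • vB e) (p * p))) := by
        intro T
        have hΞ : ∀ i, Polynomial.eval T (Ξ i) = (T • vA e + b • vB e) i := by
          intro i
          simp only [Ξ, Polynomial.eval_add, Polynomial.eval_mul, Polynomial.eval_X,
            Polynomial.eval_C, Pi.add_apply, Pi.smul_apply, smul_eq_mul]
        ext i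
        rcases i with i | i
        · simp only [G, Sum.elim_inl, pw, Polynomial.eval_pow, hΞ]
        · fin_cases i <;> simp only [G, Sum.elim_inr, pw, Pi.smul_apply, smul_eq_mul,
            Fin.zero_eta, Fin.mk_one, Fin.reduceFinMk, cr_zero, cr_one, cr_two,
            Polynomial.eval_mul, Polynomial.eval_sub, Polynomial.eval_C,
            Polynomial.eval_pow, hΞ]
      have hzero : aeval G H * Polynomial.X = 0 := by
        apply Polynomial.funext
        intro T
        rw [Polynomial.eval_mul, Polynomial.eval_X, Polynomial.eval_zero]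
        by_cases hT : T = 0
        · rw [hT, mul_zero]
        · rw [eval_aeval_poly, hGT]
          have := e1 T b 1 m hT
          rw [one_smul] at this
          rw [this, zero_mul]
      have h4 := (mul_eq_zero.1 hzero).resolve_right Polynomial.X_ne_zero
      have h5 := congrArg (Polynomial.eval 0) h4
      rw [eval_aeval_poly, hGT, Polynomial.eval_zero] at h5
      rw [ha]
      exact h5
    · have := e1 a b 1 m ha
      rwa [one_smul] at this

end Pool.Agent.V1156.Ins
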