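import Pool.Agent.V1156.Ins.Gon
import Pool.Agent.V1156.Ins.Irr

/-! Smoothness of the surface, and the final assembly. -/

set_option autoImplicit false
set_option linter.unusedSectionVars false

namespace Pool.Agent.V1156.Ins

open MvPolynomial

variable {k : Type*} [Field k] {p : ℕ} [hp : Fact p.Prime] [CharP k p] [IsAlgClosed k]

omit hp [CharP k p] [IsAlgClosed k] in
theorem fX_bihom : IsBihomogeneous (fX k p) 1 p := by
  unfold IsBihomogeneous fX
  apply IsWeightedHomogeneous.sum
  intro i _
  have h1 := isWeightedHomogeneous_X k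
    (Sum.elim (fun _ : Fin 3 => ((1, 0) : ℕ × ℕ)) (fun _ : Fin 3 => ((0, 1) : ℕ × ℕ))) (Sum.inl i)
  have h2 := isWeightedHomogeneous_X k
    (Sum.elim (fun _ : Fin 3 => ((1, 0) : ℕ × ℕ)) (fun _ : Fin 3 => ((0, 1) : ℕ × ℕ))) (Sum.inr i)
  have h3 := h1.mul (h2.pow p)
  simpa using h3

omit hp [CharP k p] [IsAlgClosed k] in
theorem gX_bihom : IsBihomogeneous (gX k p) p 1 := by
  unfold IsBihomogeneous gX
  apply IsWeightedHomogeneous.sum
  intro i _
  have h1 := isWeightedHomogeneous_X k
    (Sum.elim (fun _ : Fin 3 => ((1, 0) : ℕ × ℕ)) (fun _ : Fin 3 => ((0, 1) : ℕ × ℕ))) (Sum.inl i)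
  have h2 := isWeightedHomogeneous_X k
    (Sum.elim (fun _ : Fin 3 => ((1, 0) : ℕ × ℕ)) (fun _ : Fin 3 => ((0, 1) : ℕ × ℕ))) (Sum.inr i)
  have h3 := (h1.pow p).mul h2
  simpa using h3

theorem gradient_fX (P : Ix → k) : gradient (fX k p) P =
    Sum.elim (fun i => P (Sum.inr i) ^ p) (fun _ => 0) := by
  ext i
  unfold gradient fX
  rw [map_sum, map_sum]
  rcases i with i | i
  · rw [Finset.sum_eq_single i]
    · rw [Derivation.leibniz, pderiv_X_self, Derivation.leibniz_pow, pderiv_X_of_ne (by simp)]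
      simp
    · intro j _ hj
      rw [Derivation.leibniz, pderiv_X_of_ne (by simpa using hj), Derivation.leibniz_pow,
        pderiv_X_of_ne (by simp)]
      simp
    · simp
  · apply Finset.sum_eq_zero
    intro j _
    rw [Derivation.leibniz, pderiv_X_of_ne (by simp), Derivation.leibniz_pow]
    simp

theorem gradient_gX (P : Ix → k) : gradient (gX k p) P =
    Sum.elim (fun _ => 0) (fun i => P (Sum.inl i) ^ p) := by
  ext i
  unfold gradient gX
  rw [map_sum, map_sum]
  rcases i with i | i
  · apply Finset.sum_eq_zero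
    intro j _
    rw [Derivation.leibniz, pderiv_X_of_ne (by simp), Derivation.leibniz_pow]
    simp
  · rw [Finset.sum_eq_single i]
    · rw [Derivation.leibniz, pderiv_X_self, Derivation.leibniz_pow, pderiv_X_of_ne (by simp)]
      simp
    · intro j _ hj
      rw [Derivation.leibniz, pderiv_X_of_ne (by simpa using hj), Derivation.leibniz_pow,
        pderiv_X_of_ne (by simp)]
      simp
    · simp

theorem smooth_surf : IsSmoothSurface (fX k p) (gX k p) := by
  refine ⟨⟨1, p, fX_bihom⟩, ⟨p, 1, gX_bihom⟩, ?_⟩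
  intro P hP
  obtain ⟨⟨i, hi⟩, ⟨j, hj⟩, -⟩ := hP
  rw [gradient_fX, gradient_gX, LinearIndependent.pair_iff]
  intro s t hst
  have h1 := congrFun hst (Sum.inl j)
  have h2 := congrFun hst (Sum.inr i)
  simp only [Pi.add_apply, Pi.smul_apply, Sum.elim_inl, Sum.elim_inr, smul_eq_mul, mul_zero,
    add_zero, zero_add, Pi.zero_apply] at h1 h2
  exact ⟨(mul_eq_zero.1 h1).resolve_right (pow_ne_zero _ hj),
    (mul_eq_zero.1 h2).resolve_right (pow_ne_zero _ hi)⟩

variable (k p) in
theorem general_line : GeneralPreimageHasGonality (surf k p) 1 := by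
  have hinf : Infinite k := IsAlgClosed.instInfinite
  have hp1 : 1 < p := hp.out.one_lt
  have hpp : 1 < p * p := by nlinarith
  obtain ⟨a, ha⟩ := exists_moore (k := k) hpp
  have hev : ∀ v : Fin 3 → k, eval v (moore (p * p) X : MvPolynomial (Fin 3) k) =
      moore (p * p) v := by
    intro v
    simp [moore, dt, pw]
  refine ⟨moore (p * p) X, ?_, ?_⟩
  · intro h
    have := hev a
    rw [h, map_zero] at this
    exact ha this.symm
  · intro c hc
    rw [hev] at hc
    obtain ⟨e, he⟩ := exists_root p c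
    have hme : moore (p * p) e ≠ 0 := by
      intro h
      apply hc
      rw [← he, moore_pw, h, zero_pow hp.out.ne_zero]
    have hirr : Irred (preLine k p c) := irred_line he hme
    exact ⟨hirr, gonality_line he hme⟩

end Pool.Agent.V1156.Ins
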