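import Pool.Agent.V1156.Ins.Defs
import Pool.Agent.V1156.Ins.Cross

/-! The surface `∑ x_i y_i ^ p = ∑ x_i ^ p y_i = 0` and its vanishing ideal. -/

set_option autoImplicit false

namespace Pool.Agent.V1156.Ins

open MvPolynomial

section cross

variable {A : Type*} [CommRing A]

theorem cr_cr_cr (a b d : Fin 3 → A) : cr (cr a b) (cr b d) = dt a (cr b d) • b := by
  ext i
  fin_cases i <;> simp [cr, dt] <;> ring

theorem cr_cr_right (y a e : Fin 3 → A) : cr y (cr a e) = dt y e • a - dt y a • e := by
  ext i
  fin_cases i <;> simp [cr, dt] <;> ring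

theorem map_dt {B : Type*} [CommRing B] (φ : A →+* B) (a b : Fin 3 → A) :
    φ (dt a b) = dt (fun i => φ (a i)) (fun i => φ (b i)) := by
  simp [dt]

theorem map_cr {B : Type*} [CommRing B] (φ : A →+* B) (a b : Fin 3 → A) (j : Fin 3) :
    φ (cr a b j) = cr (fun i => φ (a i)) (fun i => φ (b i)) j := by
  fin_cases j <;> simp

/-- the Moore determinant -/
def moore (q : ℕ) (a : Fin 3 → A) : A := dt a (cr (pw a q) (pw a (q * q)))

end cross

variable {k : Type*} [Field k]

/-- the first equation -/
noncomputable def fX (k : Type*) [Field k] (p : ℕ) : MvPolynomial Ix k :=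
  ∑ i : Fin 3, X (Sum.inl i) * X (Sum.inr i) ^ p

/-- the second equation -/
noncomputable def gX (k : Type*) [Field k] (p : ℕ) : MvPolynomial Ix k :=
  ∑ i : Fin 3, X (Sum.inl i) ^ p * X (Sum.inr i)

theorem mem_zeros_iff {p : ℕ} {x y : Fin 3 → k} : Sum.elim x y ∈ zeros {fX k p, gX k p} ↔
    x ≠ 0 ∧ y ≠ 0 ∧ dt x (pw y p) = 0 ∧ dt (pw x p) y = 0 := by
  simp only [zeros, Set.mem_ofPred_eq, Sum.elim_inl, Sum.elim_inr, Set.mem_insert_iff,
    Set.mem_singleton_iff, forall_eq_or_imp, forall_eq, Function.ne_iff, Pi.zero_apply]
  have h1 : eval (Sum.elim x y) (fX k p) = dt x (pw y p) := by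
    simp [fX, dt, pw, Fin.sum_univ_three]
  have h2 : eval (Sum.elim x y) (gX k p) = dt (pw x p) y := by
    simp [gX, dt, pw, Fin.sum_univ_three]
  rw [h1, h2]

/-- generic vanishing -/
theorem eval_zero_of_generic [Infinite k] {τ : Type*} {F N : MvPolynomial τ k} (hN : N ≠ 0)
    (h : ∀ v : τ → k, eval v N ≠ 0 → eval v F = 0) : F = 0 := by
  have h1 : F * N = 0 := by
    apply MvPolynomial.funext
    intro v
    rw [map_mul, map_zero]
    by_cases hv : eval v N = 0
    · rw [hv, mul_zero]
    · rw [h v hv, zero_mul]
  exact (mul_eq_zero.1 h1).resolve_right hN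

/-- the affine parametrization of the cone over the surface -/
noncomputable def par (k : Type*) [Field k] (p : ℕ) : Ix → MvPolynomial (Fin 4) k :=
  Sum.elim ((X 2 : MvPolynomial (Fin 4) k) • pw ![1, X 0, X 1] p)
    ((X 3 : MvPolynomial (Fin 4) k) • cr ![1, X 0, X 1] (pw ![1, X 0, X 1] (p * p)))

theorem eval_par {p : ℕ} (v : Fin 4 → k) : (fun i => eval v (par k p i)) =
    Sum.elim (v 2 • pw ![1, v 0, v 1] p) (v 3 • cr ![1, v 0, v 1] (pw ![1, v 0, v 1] (p * p))) := by
  ext i
  rcases i with i | i
  · fin_cases i <;> simp [par, pw]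
  · fin_cases i <;> simp [par, pw]

theorem eval_aeval {σ τ : Type*} (y : τ → k) (G : σ → MvPolynomial τ k) (H : MvPolynomial σ k) :
    eval y (aeval G H) = eval (fun i => eval y (G i)) H := by
  have h1 : eval y (aeval G H) = aeval y (aeval G H) := by rw [aeval_eq_eval]
  rw [h1, comp_aeval_apply]
  simp only [aeval_eq_eval]

theorem exists_pow_ne [Infinite k] {q : ℕ} (hq : 1 < q) : ∃ r : k, r ^ q ≠ r := by
  by_contra h
  push Not at h
  have h1 : (Polynomial.X ^ q - Polynomial.X : Polynomial k) = 0 := by
    apply Polynomial.funext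
    intro r
    simp [h r]
  have h2 := congrArg Polynomial.natDegree h1
  rw [Polynomial.natDegree_sub_eq_left_of_natDegree_lt (by simpa using hq)] at h2
  simp at h2
  omega

theorem exists_moore [Infinite k] {q : ℕ} (hq : 1 < q) : ∃ a : Fin 3 → k, moore q a ≠ 0 := by
  obtain ⟨r, hr⟩ := exists_pow_ne (k := k) hq
  by_contra h
  push Not at h
  have hqq : q < q * q := by nlinarith
  have h1 : (Polynomial.C (r ^ (q * q) - r ^ q) * Polynomial.X
      - Polynomial.C (r ^ (q * q) - r) * Polynomial.X ^ q
      + Polynomial.C (r ^ q - r) * Polynomial.X ^ (q * q) : Polynomial k) = 0 := by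
    apply Polynomial.funext
    intro t
    have := h ![1, r, t]
    simp only [moore, dt, cr, pw, Matrix.cons_val_zero, Matrix.cons_val_one, Matrix.cons_val,
      Fin.isValue, one_pow] at this
    simp only [Polynomial.eval_add, Polynomial.eval_sub, Polynomial.eval_mul, Polynomial.eval_C,
      Polynomial.eval_X, Polynomial.eval_pow, Polynomial.eval_zero]
    linear_combination this
  have h2 := congrArg (fun P => Polynomial.coeff P (q * q)) h1
  simp only [Polynomial.coeff_add, Polynomial.coeff_sub, Polynomial.coeff_C_mul,
    Polynomial.coeff_X_pow, Polynomial.coeff_X, Polynomial.coeff_zero, if_true] at h2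
  rw [if_neg (by nlinarith : ¬ (1 = q * q)), if_neg (by omega : ¬ (q * q = q))] at h2
  apply hr
  linear_combination h2

section char

set_option linter.unusedSectionVars false

variable {p : ℕ} [hp : Fact p.Prime] [CharP k p] [IsAlgClosed k]

theorem dt_pw_one {A : Type*} [CommRing A] [CharP A p] (a b : Fin 3 → A) :
    dt (pw a p) (pw b p) = dt a b ^ p := by
  have := dt_pw p a b 1
  rwa [pow_one] at this

theorem cr_pw_one {A : Type*} [CommRing A] [CharP A p] (a b : Fin 3 → A) :
    cr (pw a p) (pw b p) = pw (cr a b) p := by
  have := cr_pw p a b 1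
  rwa [pow_one] at this

theorem cr_pw_two {A : Type*} [CommRing A] [CharP A p] (a b : Fin 3 → A) :
    cr (pw a (p * p)) (pw b (p * p)) = pw (cr a b) (p * p) := by
  have := cr_pw p a b 2
  rwa [sq] at this

theorem dt_pw_two {A : Type*} [CommRing A] [CharP A p] (a b : Fin 3 → A) :
    dt (pw a (p * p)) (pw b (p * p)) = dt a b ^ (p * p) := by
  have := dt_pw p a b 2
  rwa [sq] at this

theorem moore_pw {A : Type*} [CommRing A] [CharP A p] (a : Fin 3 → A) (q : ℕ) :
    moore q (pw a p) = moore q a ^ p := by
  have h : ∀ n, pw (pw a p) n = pw (pw a n) p := fun n => by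
    rw [pw_pw, pw_pw, mul_comm]
  rw [moore, moore, ← dt_pw_one, ← cr_pw_one, h, h]

variable (p) in
theorem exists_root (x : Fin 3 → k) : ∃ ξ : Fin 3 → k, pw ξ p = x := by
  have h : ∀ i, ∃ c : k, c ^ p = x i := fun i =>
    IsAlgClosed.exists_pow_nat_eq (x i) (n := p) hp.out.pos
  choose ξ hξ using h
  exact ⟨ξ, funext hξ⟩

omit hp [CharP k p] [IsAlgClosed k] in
theorem pw_eq_zero {ξ : Fin 3 → k} {n : ℕ} (hn : n ≠ 0) : pw ξ n = 0 ↔ ξ = 0 := by
  constructor
  · intro h
    ext i
    have := congrFun h i
    simpa [pw, hn] using this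
  · rintro rfl
    ext i
    simp [pw, hn]

/-- points given by a vector `ξ` with `ξ × ξ ^ q ≠ 0` -/
theorem eq_of_cr_ne {ξ y : Fin 3 → k} (hx : dt (pw ξ p) (pw y p) = 0)
    (hy : dt (pw (pw ξ p) p) y = 0) (h : cr ξ (pw ξ (p * p)) ≠ 0) :
    ∃ c : k, y = c • cr ξ (pw ξ (p * p)) := by
  apply exists_mul_of_dt _ _ h
  · rw [dt_pw_one] at hx
    exact pow_eq_zero_iff hp.out.ne_zero |>.1 hx
  · rwa [pw_pw] at hy

/-- The ideal of the surface is the kernel of the parametrization. -/
theorem ideal_surf (H : MvPolynomial Ix k) :
    H ∈ vanishingIdeal k (zeros {fX k p, gX k p}) ↔ aeval (par k p) H = 0 := by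
  have hinf : Infinite k := IsAlgClosed.instInfinite
  have hp1 : 1 < p := hp.out.one_lt
  have hpp : 1 < p * p := by nlinarith
  constructor
  · intro hH
    obtain ⟨r, hr⟩ := exists_pow_ne (k := k) hpp
    apply eval_zero_of_generic (N := X 2 * X 3 * (X 1 - X 1 ^ (p * p)))
    · intro h0
      have := congrArg (eval ![0, r, 1, 1]) h0
      simp only [map_mul, map_sub, map_pow, eval_X, Matrix.cons_val, map_zero, one_mul] at this
      exact hr (sub_eq_zero.1 this).symm
    · intro v hv
      rw [map_mul, map_mul, map_sub, map_pow, eval_X, eval_X, eval_X] at hv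
      have h2 : v 2 ≠ 0 := left_ne_zero_of_mul (left_ne_zero_of_mul hv)
      have h3 : v 3 ≠ 0 := right_ne_zero_of_mul (left_ne_zero_of_mul hv)
      have h1 : v 1 - v 1 ^ (p * p) ≠ 0 := right_ne_zero_of_mul hv
      rw [eval_aeval, eval_par]
      have hmem : (Sum.elim (v 2 • pw ![1, v 0, v 1] p)
          (v 3 • cr ![1, v 0, v 1] (pw ![1, v 0, v 1] (p * p))) : Ix → k) ∈
          zeros {fX k p, gX k p} := by
        rw [mem_zeros_iff]
        refine ⟨?_, ?_, ?_, ?_⟩
        · intro h
          have := congrFun h 0
          simp [pw, h2] at this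
        · intro h
          have := congrFun h 1
          simp only [Pi.smul_apply, cr_one, smul_eq_mul, pw, Matrix.cons_val_zero, Matrix.cons_val,
            Pi.zero_apply, one_pow, mul_one, one_mul] at this
          exact mul_ne_zero h3 h1 this
        · rw [dt_smul_left, pw_smul, dt_smul_right, dt_pw_one, dt_cr_left, zero_pow hp.out.ne_zero,
            mul_zero, mul_zero]
        · rw [pw_smul, pw_pw, dt_smul_left, dt_smul_right, dt_cr_right, mul_zero, mul_zero]
      have := hH _ hmem
      rwa [aeval_eq_eval] at this
  · intro hH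
    -- points of the first type, first coordinate nonzero
    have e1 : ∀ (ξ : Fin 3 → k) (l m : k), ξ 0 ≠ 0 →
        eval (Sum.elim (l • pw ξ p) (m • cr ξ (pw ξ (p * p))) : Ix → k) H = 0 := by
      intro ξ l m h0
      have h1 := congrArg (eval ![ξ 1 / ξ 0, ξ 2 / ξ 0, l * ξ 0 ^ p, m * ξ 0 ^ (1 + p * p)]) hH
      rw [eval_aeval, eval_par, map_zero] at h1
      have h2 : ξ = ξ 0 • ![1, ξ 1 / ξ 0, ξ 2 / ξ 0] := by
        ext i
        fin_cases i <;> simp [mul_div_cancel₀ _ h0]
      have h3 : l • pw ξ p = (l * ξ 0 ^ p) • pw ![1, ξ 1 / ξ 0, ξ 2 / ξ 0] p := by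
        conv_lhs => rw [h2]
        rw [pw_smul, smul_smul]
      have h4 : m • cr ξ (pw ξ (p * p)) = (m * ξ 0 ^ (1 + p * p)) •
          cr ![1, ξ 1 / ξ 0, ξ 2 / ξ 0] (pw ![1, ξ 1 / ξ 0, ξ 2 / ξ 0] (p * p)) := by
        conv_lhs => rw [h2]
        rw [pw_smul, cr_smul_left, cr_smul_right, smul_smul, smul_smul]
        congr 1
        ring
      rw [h3, h4]
      simpa using h1
    -- all points of the first type
    have e2 : ∀ (ξ : Fin 3 → k) (l m : k),
        eval (Sum.elim (l • pw ξ p) (m • cr ξ (pw ξ (p * p))) : Ix → k) H = 0 := by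
      intro ξ l m
      let G : Ix → MvPolynomial (Fin 3) k := Sum.elim
        ((C l : MvPolynomial (Fin 3) k) • pw (X : Fin 3 → MvPolynomial (Fin 3) k) p)
        ((C m : MvPolynomial (Fin 3) k) • cr (X : Fin 3 → MvPolynomial (Fin 3) k) (pw X (p * p)))
      have hG : ∀ v : Fin 3 → k, (fun i => eval v (G i)) =
          Sum.elim (l • pw v p) (m • cr v (pw v (p * p))) := by
        intro v
        ext i
        rcases i with i | i
        · fin_cases i <;> simp [G, pw]
        · fin_cases i <;> simp [G, pw]
      have h1 : aeval G H = 0 := by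
        apply eval_zero_of_generic (N := X 0) (X_ne_zero 0)
        intro v hv
        rw [eval_X] at hv
        rw [eval_aeval, hG]
        exact e1 v l m hv
      have h2 := congrArg (eval ξ) h1
      rwa [eval_aeval, hG, map_zero] at h2
    -- all points of the second type
    have e3 : ∀ (η : Fin 3 → k) (l m : k),
        eval (Sum.elim (l • cr η (pw η (p * p))) (m • pw η p) : Ix → k) H = 0 := by
      intro η l m
      let G : Ix → MvPolynomial (Fin 3) k := Sum.elim
        ((C l : MvPolynomial (Fin 3) k) • cr (X : Fin 3 → MvPolynomial (Fin 3) k) (pw X (p * p)))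
        ((C m : MvPolynomial (Fin 3) k) • pw (X : Fin 3 → MvPolynomial (Fin 3) k) p)
      have hG : ∀ v : Fin 3 → k, (fun i => eval v (G i)) =
          Sum.elim (l • cr v (pw v (p * p))) (m • pw v p) := by
        intro v
        ext i
        rcases i with i | i
        · fin_cases i <;> simp [G, pw]
        · fin_cases i <;> simp [G, pw]
      have h1 : aeval G H = 0 := by
        obtain ⟨a, ha⟩ := exists_moore (k := k) hpp
        have hev : ∀ v : Fin 3 → k, eval v (moore (p * p) X : MvPolynomial (Fin 3) k) =
            moore (p * p) v := by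
          intro v
          simp [moore, dt, pw]
        apply eval_zero_of_generic (N := moore (p * p) X)
        · intro h
          have := hev a
          rw [h, map_zero] at this
          exact ha this.symm
        · intro v hv
          rw [hev] at hv
          rw [eval_aeval, hG]
          obtain ⟨ζ, hζ⟩ := exists_root p v
          set ξ := cr ζ (pw ζ (p * p)) with hξ
          have hξp : pw ξ p = cr v (pw v (p * p)) := by
            rw [hξ, ← cr_pw_one, hζ, pw_pw, mul_comm (p * p) p, ← pw_pw, hζ]
          have hvp : pw v p = pw ζ (p * p) := by rw [← hζ, pw_pw]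
          have hcr : cr ξ (pw ξ (p * p)) ≠ 0 := by
            have h5 : pw ξ (p * p) = cr (pw ζ (p * p)) (pw (pw ζ (p * p)) (p * p)) := by
              rw [hξ, ← cr_pw_two]
            rw [h5, hξ, cr_cr_cr]
            intro h6
            have hm : moore (p * p) ζ ^ p = moore (p * p) v := by
              rw [← hζ, moore_pw]
            have hm0 : moore (p * p) ζ ≠ 0 := by
              intro h7
              rw [h7, zero_pow hp.out.ne_zero] at hm
              exact hv hm.symm
            have h8 : dt ζ (cr (pw ζ (p * p)) (pw (pw ζ (p * p)) (p * p))) ≠ 0 := by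
              rw [pw_pw]
              exact hm0
            rcases smul_eq_zero.1 h6 with h9 | h9
            · exact h8 h9
            · rw [h9] at h8
              apply h8
              simp [dt, cr]
          obtain ⟨c, hc⟩ := exists_mul_of_dt (a := ξ) (b := pw ξ (p * p)) (y := pw v p)
            (by rw [hvp, hξ, dt_comm, dt_cr_right])
            (by rw [hvp, hξ, ← cr_pw_two, dt_comm, dt_cr_left]) hcr
          rw [hc, ← hξp, smul_smul]
          exact e2 ξ l (m * c)
      have h2 := congrArg (eval η) h1
      rwa [eval_aeval, hG, map_zero] at h2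
    -- points with `y` not rational
    have e4 : ∀ x y : Fin 3 → k, dt x (pw y p) = 0 → dt (pw x p) y = 0 →
        cr y (pw y (p * p)) ≠ 0 → eval (Sum.elim x y : Ix → k) H = 0 := by
      intro x y h1 h2 h3
      obtain ⟨η, rfl⟩ := exists_root p y
      have h4 : cr η (pw η (p * p)) ≠ 0 := by
        intro h
        apply h3
        have : pw (pw η p) (p * p) = pw (pw η (p * p)) p := by
          rw [pw_pw, pw_pw, mul_comm]
        rw [this, cr_pw_one, h]
        ext i
        simp [pw, hp.out.ne_zero]
      obtain ⟨c, hc⟩ := exists_mul_of_dt (a := η) (b := pw η (p * p)) (y := x)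
        (by
          rw [dt_pw_one] at h2
          rw [dt_comm]
          exact pow_eq_zero_iff hp.out.ne_zero |>.1 h2)
        (by rw [dt_comm, ← pw_pw]; exact h1) h4
      have := e3 η c 1
      rw [one_smul] at this
      rw [hc]
      exact this
    rintro P hP
    have hPe : P = Sum.elim (fun i => P (Sum.inl i)) (fun i => P (Sum.inr i)) := by
      ext i
      rcases i with i | i <;> rfl
    rw [aeval_eq_eval]
    rw [hPe] at hP ⊢
    generalize (fun i => P (Sum.inl i)) = x at hP ⊢
    generalize (fun i => P (Sum.inr i)) = y at hP ⊢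
    rw [mem_zeros_iff] at hP
    obtain ⟨hx0, hy0, h1, h2⟩ := hP
    obtain ⟨ξ, rfl⟩ := exists_root p x
    have hξ0 : ξ ≠ 0 := by
      rintro rfl
      apply hx0
      rw [pw_eq_zero hp.out.ne_zero]
    by_cases hc1 : cr ξ (pw ξ (p * p)) = 0
    · obtain ⟨κ, hκ⟩ := exists_mul_of_cr hξ0 hc1
      have hξy : dt ξ y = 0 := by
        rw [dt_pw_one] at h1
        exact pow_eq_zero_iff hp.out.ne_zero |>.1 h1
      -- a second vector orthogonal to `ξ`
      obtain ⟨j, hj⟩ := Function.ne_iff.1 hy0
      set z : Fin 3 → k := cr ξ (Pi.single j 1) with hz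
      have hξz : dt ξ z = 0 := dt_cr_left _ _
      have hyz : cr y z ≠ 0 := by
        rw [hz, cr_cr_right, dt_comm y ξ, hξy, zero_smul, sub_zero]
        have : dt y (Pi.single j 1) = y j := by
          fin_cases j <;> simp [dt]
        rw [this]
        exact smul_ne_zero hj hξ0
      let Y : Fin 3 → Polynomial k := fun i => Polynomial.C (y i) + Polynomial.X * Polynomial.C (z i)
      let G : Ix → Polynomial k := Sum.elim (fun i => Polynomial.C (pw ξ p i)) Y
      have hV : cr Y (pw Y (p * p)) ≠ 0 := by
        intro hV
        have hYq : ∀ i, Y i ^ (p * p) = Polynomial.C (y i ^ (p * p)) +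
            Polynomial.X ^ (p * p) * Polynomial.C (z i ^ (p * p)) := by
          intro i
          have := add_pow_char_pow (p := p) (n := 2) (Polynomial.C (y i))
            (Polynomial.X * Polynomial.C (z i))
          rw [sq] at this
          simp only [Y]
          rw [this, mul_pow, map_pow, map_pow]
        have key : ∀ i j : Fin 3, Y i * Y j ^ (p * p) - Y j * Y i ^ (p * p) = 0 →
            z i * z j ^ (p * p) - z j * z i ^ (p * p) = 0 ∧
            y i * z j ^ (p * p) - y j * z i ^ (p * p) = 0 := by
          intro i j h
          rw [hYq, hYq] at h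
          have h' : Polynomial.C (y i * y j ^ (p * p) - y j * y i ^ (p * p)) +
              Polynomial.C (z i * y j ^ (p * p) - z j * y i ^ (p * p)) * Polynomial.X ^ 1 +
              Polynomial.C (y i * z j ^ (p * p) - y j * z i ^ (p * p)) * Polynomial.X ^ (p * p) +
              Polynomial.C (z i * z j ^ (p * p) - z j * z i ^ (p * p)) *
                Polynomial.X ^ (p * p + 1) = 0 := by
            rw [← h]
            simp only [Y, map_sub, map_mul, map_pow]
            ring
          have c1 := congrArg (fun P => Polynomial.coeff P (p * p + 1)) h'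
          have c2 := congrArg (fun P => Polynomial.coeff P (p * p)) h'
          simp only [Polynomial.coeff_add, Polynomial.coeff_C_mul, Polynomial.coeff_X_pow,
            Polynomial.coeff_zero, Polynomial.coeff_C, if_true] at c1 c2
          rw [if_neg (by omega), if_neg (by omega), if_neg (by omega)] at c1
          rw [if_neg (by omega), if_neg (by omega), if_neg (by omega)] at c2
          constructor
          · linear_combination c1
          · linear_combination c2
        have g0 := key 1 2 (by have := congrFun hV 0; simpa [pw] using this)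
        have g1 := key 2 0 (by have := congrFun hV 1; simpa [pw] using this)
        have g2 := key 0 1 (by have := congrFun hV 2; simpa [pw] using this)
        have hz0 : z ≠ 0 := by
          intro h
          apply hyz
          rw [h]
          ext i
          fin_cases i <;> simp
        have hzz : cr z (pw z (p * p)) = 0 := by
          ext i
          fin_cases i
          · simpa [pw] using g0.1
          · simpa [pw] using g1.1
          · simpa [pw] using g2.1
        have hyzq : cr y (pw z (p * p)) = 0 := by
          ext i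
          fin_cases i
          · simpa [pw] using g0.2
          · simpa [pw] using g1.2
          · simpa [pw] using g2.2
        obtain ⟨c, hc⟩ := exists_mul_of_cr hz0 hzz
        rw [hc, cr_smul_right] at hyzq
        rcases smul_eq_zero.1 hyzq with h | h
        · rw [h, zero_smul, pw_eq_zero (by positivity)] at hc
          exact hz0 hc
        · exact hyz h
      obtain ⟨l, hl⟩ := Function.ne_iff.1 hV
      have hmul : aeval G H * cr Y (pw Y (p * p)) l = 0 := by
        apply Polynomial.funext
        intro T
        rw [Polynomial.eval_mul, Polynomial.eval_zero]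
        by_cases hT : Polynomial.eval T (cr Y (pw Y (p * p)) l) = 0
        · rw [hT, mul_zero]
        · have hYT : (fun i => Polynomial.eval T (Y i)) = y + T • z := by
            ext i
            simp only [Y, Polynomial.eval_add, Polynomial.eval_mul, Polynomial.eval_C,
              Polynomial.eval_X, Pi.add_apply, Pi.smul_apply, smul_eq_mul]
          have hcrT : Polynomial.eval T (cr Y (pw Y (p * p)) l) =
              cr (y + T • z) (pw (y + T • z) (p * p)) l := by
            have := map_cr (Polynomial.evalRingHom T) Y (pw Y (p * p)) l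
            rw [Polynomial.coe_evalRingHom] at this
            rw [this, hYT]
            congr 1
            ext i
            have := congrFun hYT i
            simp only [pw, Polynomial.eval_pow, ← this]
          have hGT : (fun i => Polynomial.eval T (G i)) = Sum.elim (pw ξ p) (y + T • z) := by
            ext i
            rcases i with i | i
            · simp [G]
            · exact congrFun hYT i
          have h5 : Polynomial.eval T (aeval G H) = eval (fun i => Polynomial.eval T (G i)) H := by
            have h6 : Polynomial.eval T (aeval G H) = Polynomial.aeval T (aeval G H) := by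
              rw [Polynomial.coe_aeval_eq_eval]
            rw [h6, comp_aeval_apply, ← aeval_eq_eval]
            simp only [Polynomial.coe_aeval_eq_eval]
          rw [h5, hGT, e4, zero_mul]
          · rw [dt_pw_one]
            have : dt ξ (y + T • z) = dt ξ y + T * dt ξ z := by
              simp only [dt, Pi.add_apply, Pi.smul_apply, smul_eq_mul]; ring
            rw [this, hξy, hξz, mul_zero, add_zero, zero_pow hp.out.ne_zero]
          · rw [pw_pw, hκ, dt_smul_left]
            have : dt ξ (y + T • z) = dt ξ y + T * dt ξ z := by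
              simp only [dt, Pi.add_apply, Pi.smul_apply, smul_eq_mul]; ring
            rw [this, hξy, hξz, mul_zero, add_zero, mul_zero]
          · intro h
            rw [hcrT, h] at hT
            exact hT rfl
      have hzero : aeval G H = 0 := (mul_eq_zero.1 hmul).resolve_right hl
      have h7 := congrArg (Polynomial.eval 0) hzero
      have h8 : Polynomial.eval 0 (aeval G H) = eval (fun i => Polynomial.eval 0 (G i)) H := by
        have h6 : Polynomial.eval 0 (aeval G H) = Polynomial.aeval (0 : k) (aeval G H) := by
          rw [Polynomial.coe_aeval_eq_eval]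
        rw [h6, comp_aeval_apply, ← aeval_eq_eval]
        simp only [Polynomial.coe_aeval_eq_eval]
      have h9 : (fun i => Polynomial.eval 0 (G i)) = Sum.elim (pw ξ p) y := by
        ext i
        rcases i with i | i
        · simp [G]
        · simp [G, Y]
      rwa [h8, h9, Polynomial.eval_zero] at h7
    · obtain ⟨c, hc⟩ := eq_of_cr_ne h1 h2 hc1
      have := e2 ξ 1 c
      rw [one_smul] at this
      rw [hc]
      exact this

end char

end Pool.Agent.V1156.Ins
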