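import Pool.Agent.V1156.Ins.Dual

/-! Two vector fields. -/

set_option autoImplicit false

namespace Pool.Agent.V1156.Ins

open MvPolynomial

variable {k : Type*} [Field k] {p : ℕ} [hp : Fact p.Prime] [CharP k p]

/-- the generic vector `(1, r, t)` -/
noncomputable def nu (k : Type*) [Field k] : Fin 3 → Rf k 4 := ![1, jj k 4 (X 0), jj k 4 (X 1)]

/-- the generic cross product -/
noncomputable def cc (k : Type*) [Field k] (p : ℕ) : Fin 3 → Rf k 4 := cr (nu k) (pw (nu k) (p * p))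

instance charP_Rf (n : ℕ) : CharP (Rf k n) p :=
  charP_of_injective_algebraMap (algebraMap k (Rf k n)).injective p

instance charP_dual (n : ℕ) : CharP (TrivSqZeroExt (Rf k n) (Rf k n)) p := by
  have h : Function.Injective (algebraMap k (TrivSqZeroExt (Rf k n) (Rf k n))) :=
    (algebraMap k (TrivSqZeroExt (Rf k n) (Rf k n))).injective
  exact charP_of_injective_algebraMap h p

theorem inr_pow {n : ℕ} (z : Rf k n) {m : ℕ} (hm : 2 ≤ m) :
    (TrivSqZeroExt.inr z : TrivSqZeroExt (Rf k n) (Rf k n)) ^ m = 0 := by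
  obtain ⟨m, rfl⟩ := Nat.exists_eq_add_of_le hm
  rw [pow_add, sq, TrivSqZeroExt.inr_mul_inr, zero_mul]

theorem frob_dual {n : ℕ} (a b : Rf k n) :
    (TrivSqZeroExt.inl a + TrivSqZeroExt.inr b : TrivSqZeroExt (Rf k n) (Rf k n)) ^ p =
      TrivSqZeroExt.inl (a ^ p) := by
  rw [add_pow_char, inr_pow b hp.out.two_le, add_zero, TrivSqZeroExt.inl_pow]

theorem X_pow_ne {n : ℕ} (i : Fin n) {q : ℕ} (hq : 1 < q) : jj k n (X i) ^ q ≠ jj k n (X i) := by
  intro h
  rw [← map_pow] at h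
  have h1 : (X i ^ q : MvPolynomial (Fin n) k) = X i :=
    IsFractionRing.injective (MvPolynomial (Fin n) k) (Rf k n) h
  have h2 := congrArg totalDegree h1
  rw [totalDegree_X_pow, totalDegree_X] at h2
  omega

theorem X_ne {n : ℕ} (i : Fin n) : jj k n (X i) ≠ 0 := by
  intro h
  have : (X i : MvPolynomial (Fin n) k) = 0 :=
    (map_eq_zero_iff _ (IsFractionRing.injective (MvPolynomial (Fin n) k) (Rf k n))).1 h
  exact X_ne_zero i this

set_option linter.unusedSectionVars false in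
theorem cc_one_ne : cc k p 1 ≠ 0 := by
  have hp1 : 1 < p := hp.out.one_lt
  simp only [cc, cr_one, nu, pw, Matrix.cons_val_zero, Matrix.cons_val, one_pow, mul_one, one_mul]
  exact sub_ne_zero.2 (X_pow_ne 1 (by nlinarith : 1 < p * p)).symm

theorem cc_zero_ne : cc k p 0 ≠ 0 := by
  have hp1 : 1 < p := hp.out.one_lt
  have hpp : 1 < p * p := by nlinarith
  simp only [cc, cr_zero, nu, pw, Matrix.cons_val_one, Matrix.cons_val]
  intro h
  have h1 : jj k 4 (X 0 * X 1 ^ (p * p) - X 1 * X 0 ^ (p * p)) = 0 := by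
    simpa using h
  have h2 : (X 0 * X 1 ^ (p * p) - X 1 * X 0 ^ (p * p) : MvPolynomial (Fin 4) k) = 0 :=
    (map_eq_zero_iff _ (IsFractionRing.injective (MvPolynomial (Fin 4) k) (Rf k 4))).1 h1
  have h3 := congrArg (pderiv (0 : Fin 4)) h2
  rw [map_sub, Derivation.leibniz, Derivation.leibniz, Derivation.leibniz_pow,
    Derivation.leibniz_pow, pderiv_X_self, pderiv_X_of_ne (by decide)] at h3
  simp only [smul_zero, zero_add, smul_eq_mul, mul_one, map_zero, nsmul_eq_mul,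
    Nat.cast_mul, CharP.cast_eq_zero, zero_mul, mul_zero, sub_zero, add_zero] at h3
  exact pow_ne_zero _ (X_ne_zero 1) h3

/-- the action of a vector field on the cross product -/
theorem dual_cc {σ : Rf k 4 →ₐ[k] TrivSqZeroExt (Rf k 4) (Rf k 4)} {α β : Rf k 4}
    (h0 : σ (jj k 4 (X 0)) = TrivSqZeroExt.inl (jj k 4 (X 0)) + TrivSqZeroExt.inr α)
    (h1 : σ (jj k 4 (X 1)) = TrivSqZeroExt.inl (jj k 4 (X 1)) + TrivSqZeroExt.inr β) (i : Fin 3) :
    σ (cc k p i) = TrivSqZeroExt.inl (cc k p i) +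
      TrivSqZeroExt.inr (cr ![0, α, β] (pw (nu k) (p * p)) i) := by
  have hν : ∀ i, σ (nu k i) = TrivSqZeroExt.inl (nu k i) + TrivSqZeroExt.inr (![0, α, β] i) := by
    intro i
    fin_cases i
    · simp [nu]
    · simpa [nu] using h0
    · simpa [nu] using h1
  have hνq : ∀ i, σ (nu k i ^ (p * p)) = TrivSqZeroExt.inl (nu k i ^ (p * p)) := by
    intro i
    rw [pow_mul, map_pow, map_pow, hν, frob_dual, ← TrivSqZeroExt.inl_pow,
      TrivSqZeroExt.inl_pow, TrivSqZeroExt.inl_pow]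
  have key : ∀ i j : Fin 3, σ (nu k i * nu k j ^ (p * p) - nu k j * nu k i ^ (p * p)) =
      TrivSqZeroExt.inl (nu k i * nu k j ^ (p * p) - nu k j * nu k i ^ (p * p)) +
      TrivSqZeroExt.inr (![0, α, β] i * nu k j ^ (p * p) - ![0, α, β] j * nu k i ^ (p * p)) := by
    intro i j
    rw [map_sub, map_mul, map_mul, hν, hν, hνq, hνq]
    ext
    · simp
    · simp [mul_comm]
  fin_cases i
  · exact key 1 2
  · exact key 2 0
  · exact key 0 1

theorem ratio_not_fixed {σ : Rf k 4 →ₐ[k] TrivSqZeroExt (Rf k 4) (Rf k 4)}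
    (hσ : ∀ i, σ (jj k 4 (X i)) = TrivSqZeroExt.inl (jj k 4 (X i)) +
      TrivSqZeroExt.inr ((![1, 0, 0, 0] : Fin 4 → Rf k 4) i)) :
    σ (cc k p 1 / cc k p 0) ≠ TrivSqZeroExt.inl (cc k p 1 / cc k p 0) := by
  intro heq
  have h0 := hσ 0
  have h1 := hσ 1
  have hd := dual_cc (p := p) h0 h1
  set s := cc k p 1 / cc k p 0 with hs
  have hc0 : cc k p 0 ≠ 0 := cc_zero_ne
  have hc1 : cc k p 1 ≠ 0 := cc_one_ne
  have h3 : s * cc k p 0 = cc k p 1 := div_mul_cancel₀ _ hc0
  have h4 := congrArg σ h3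
  rw [map_mul, heq, hd, hd] at h4
  have h5 := congrArg TrivSqZeroExt.snd h4
  simp only [TrivSqZeroExt.snd_mul, TrivSqZeroExt.fst_inl,
    TrivSqZeroExt.snd_add, TrivSqZeroExt.snd_inl, TrivSqZeroExt.snd_inr, zero_add, smul_eq_mul,
    TrivSqZeroExt.fst_add, TrivSqZeroExt.fst_inr, smul_zero, add_zero] at h5
  simp only [cr_zero, cr_one, Matrix.cons_val_zero, Matrix.cons_val_one, Matrix.cons_val, pw, nu,
    one_mul, zero_mul, sub_zero] at h5
  have hs0 : s ≠ 0 := div_ne_zero hc1 hc0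
  exact mul_ne_zero hs0 (pow_ne_zero _ (X_ne 1)) h5

/-- `c_1 / c_0` is not in the field of `p`-th powers of `r` and `t` -/
theorem ratio_not_mem : cc k p 1 / cc k p 0 ∉
    IntermediateField.adjoin k ({jj k 4 (X 0) ^ p, jj k 4 (X 1) ^ p} : Set (Rf k 4)) := by
  intro hmem
  obtain ⟨σ, hσ, -⟩ := exists_dual (k := k) (n := 4) ![1, 0, 0, 0]
  have h0 := hσ 0
  have h1 := hσ 1
  have heq := eq_on_adjoin σ (TrivSqZeroExt.inlAlgHom k (Rf k 4) (Rf k 4)) (S :=
    {jj k 4 (X 0) ^ p, jj k 4 (X 1) ^ p}) (by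
      rintro z (rfl | rfl)
      · rw [map_pow, h0, frob_dual]; rfl
      · rw [map_pow, h1, frob_dual]; rfl) hmem
  exact ratio_not_fixed hσ heq

/-- `c_1 / c_0` is not a `p`-th power -/
theorem ratio_not_pow (z : Rf k 4) : z ^ p ≠ cc k p 1 / cc k p 0 := by
  intro hz
  obtain ⟨σ, hσ, hfst⟩ := exists_dual (k := k) (n := 4) ![1, 0, 0, 0]
  apply ratio_not_fixed (p := p) hσ
  have h1 : σ z = TrivSqZeroExt.inl z + TrivSqZeroExt.inr (σ z).snd := by
    conv_lhs => rw [← TrivSqZeroExt.inl_fst_add_inr_snd_eq (σ z), hfst]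
  rw [← hz, map_pow, h1, frob_dual]

/-- `r` is not in the field generated by the ratios of the `c_i` and the `p`-th powers of `r` and
`t` -/
theorem r_not_mem {S : Set (Rf k 4)} (hS : ∀ z ∈ S, (∃ i j, z = nu k i ^ p / nu k j ^ p) ∨
    (∃ i j, z = cc k p i / cc k p j)) :
    jj k 4 (X 0) ∉ IntermediateField.adjoin k S := by
  intro hmem
  have hp1 : 1 < p := hp.out.one_lt
  have hpp : 1 < p * p := by nlinarith
  obtain ⟨σ, hσ, -⟩ := exists_dual (k := k) (n := 4) ![jj k 4 (X 0) - jj k 4 (X 0) ^ (p * p),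
    jj k 4 (X 1) - jj k 4 (X 1) ^ (p * p), 0, 0]
  have h0 := hσ 0
  have h1 := hσ 1
  have hd := dual_cc (p := p) h0 h1
  have hd' : ∀ i, σ (cc k p i) = (1 + TrivSqZeroExt.inr 1) * TrivSqZeroExt.inl (cc k p i) := by
    intro i
    rw [hd i, add_mul, one_mul, TrivSqZeroExt.inr_mul_inl]
    congr 2
    fin_cases i
    · simp only [cc, cr_zero, pw, nu, Fin.zero_eta, Matrix.cons_val_zero, Matrix.cons_val_one,
        Matrix.cons_val, MulOpposite.smul_eq_mul_unop, MulOpposite.unop_op]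
      ring
    · simp only [cc, cr_one, pw, nu, Fin.mk_one, Matrix.cons_val_zero, Matrix.cons_val_one,
        Matrix.cons_val, MulOpposite.smul_eq_mul_unop, MulOpposite.unop_op]
      ring
    · simp only [cc, cr_two, pw, nu, Fin.reduceFinMk, Matrix.cons_val_zero, Matrix.cons_val_one,
        MulOpposite.smul_eq_mul_unop, MulOpposite.unop_op]
      ring
  have hνp : ∀ i, σ (nu k i ^ p) = TrivSqZeroExt.inl (nu k i ^ p) := by
    intro i
    fin_cases i
    · simp [nu]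
    · have : σ (jj k 4 (X 0) ^ p) = TrivSqZeroExt.inl (jj k 4 (X 0) ^ p) := by
        rw [map_pow, h0, frob_dual]
      exact this
    · have : σ (jj k 4 (X 1) ^ p) = TrivSqZeroExt.inl (jj k 4 (X 1) ^ p) := by
        rw [map_pow, h1, frob_dual]
      exact this
  have hdiv : ∀ a b : Rf k 4, b ≠ 0 → ∀ w : TrivSqZeroExt (Rf k 4) (Rf k 4),
      IsUnit w → σ a = w * TrivSqZeroExt.inl a → σ b = w * TrivSqZeroExt.inl b →
      σ (a / b) = TrivSqZeroExt.inl (a / b) := by
    intro a b hb w hw ha hb'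
    have h5 : a / b * b = a := div_mul_cancel₀ _ hb
    have h6 := congrArg σ h5
    rw [map_mul, ha, hb'] at h6
    have h7 : (TrivSqZeroExt.inl b : TrivSqZeroExt (Rf k 4) (Rf k 4)) *
        TrivSqZeroExt.inl b⁻¹ = 1 := by
      rw [← TrivSqZeroExt.inl_mul, mul_inv_cancel₀ hb, TrivSqZeroExt.inl_one]
    have h8 : (TrivSqZeroExt.inl (a / b) : TrivSqZeroExt (Rf k 4) (Rf k 4)) =
        TrivSqZeroExt.inl a * TrivSqZeroExt.inl b⁻¹ := by
      rw [← TrivSqZeroExt.inl_mul, div_eq_mul_inv]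
    obtain ⟨w', hw'⟩ := hw.exists_right_inv
    rw [h8]
    calc σ (a / b) = σ (a / b) * (w * TrivSqZeroExt.inl b) * (w' * TrivSqZeroExt.inl b⁻¹) := by
          have : w * TrivSqZeroExt.inl b * (w' * TrivSqZeroExt.inl b⁻¹) =
              (w * w') * (TrivSqZeroExt.inl b * TrivSqZeroExt.inl b⁻¹) := by ring
          rw [mul_assoc, this, hw', h7, mul_one, mul_one]
      _ = w * TrivSqZeroExt.inl a * (w' * TrivSqZeroExt.inl b⁻¹) := by rw [h6]
      _ = (w * w') * (TrivSqZeroExt.inl a * TrivSqZeroExt.inl b⁻¹) := by ring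
      _ = _ := by rw [hw', one_mul]
  have heq := eq_on_adjoin σ (TrivSqZeroExt.inlAlgHom k (Rf k 4) (Rf k 4)) (S := S) (by
      intro z hz
      rcases hS z hz with ⟨i, j, rfl⟩ | ⟨i, j, rfl⟩
      · by_cases hj : nu k j ^ p = 0
        · rw [hj, div_zero, map_zero, map_zero]
        · exact hdiv _ _ hj 1 isUnit_one (by rw [hνp, one_mul]) (by rw [hνp, one_mul])
      · by_cases hj : cc k p j = 0
        · rw [hj, div_zero, map_zero, map_zero]
        · refine hdiv _ _ hj (1 + TrivSqZeroExt.inr 1) ?_ (hd' i) (hd' j)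
          rw [TrivSqZeroExt.isUnit_iff_isUnit_fst]
          simp) hmem
  rw [h0] at heq
  have h5 := congrArg TrivSqZeroExt.snd heq
  simp only [TrivSqZeroExt.inlAlgHom_apply, TrivSqZeroExt.snd_add, TrivSqZeroExt.snd_inl,
    TrivSqZeroExt.snd_inr, zero_add, Matrix.cons_val_zero] at h5
  exact X_pow_ne (k := k) (0 : Fin 4) hpp (sub_eq_zero.1 h5).symm

end Pool.Agent.V1156.Ins
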